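import Pool.Agent.Work.MP_b2cdcf_wpd.Interface

/-!
# Block CONST: the interval on which both constants do not change
-/

set_option autoImplicit false

open MvPolynomial

noncomputable section

namespace Pool.Agent.Work.MP_b2cdcf_wpd

/-- the conjugates -/
def CONST_cj {k : Type} [Field k] {n : ℕ} (G φ : AutP k n) (j : ℕ) : AutP k n :=
  G ^ j * φ * (G ^ j)⁻¹

theorem CONST_cj_zero {k : Type} [Field k] {n : ℕ} (G φ : AutP k n) : CONST_cj G φ 0 = φ := by
  simp [CONST_cj]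

theorem CONST_cj_add {k : Type} [Field k] {n : ℕ} (G φ : AutP k n) (i j : ℕ) :
    CONST_cj G φ (i + j) = G ^ i * CONST_cj G φ j * (G ^ i)⁻¹ := by
  unfold CONST_cj
  rw [pow_add, mul_inv_rev]
  simp only [mul_assoc]

theorem CONST_cj_succ {k : Type} [Field k] {n : ℕ} (G φ : AutP k n) (j : ℕ) :
    CONST_cj G φ (j + 1) = G * CONST_cj G φ j * G⁻¹ := by
  rw [add_comm, CONST_cj_add, pow_one]

theorem CONST_cj_inv {k : Type} [Field k] {n : ℕ} (G φ : AutP k n) (j : ℕ) :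
    (CONST_cj G φ j)⁻¹ = CONST_cj G φ⁻¹ j := by
  unfold CONST_cj
  simp only [mul_inv_rev, inv_inv, mul_assoc]

theorem CONST_back {k : Type} [Field k] {n : ℕ} (G φ : AutP k n) (i j : ℕ) :
    G⁻¹ ^ i * CONST_cj G φ (i + j) * (G⁻¹ ^ i)⁻¹ = CONST_cj G φ j := by
  rw [CONST_cj_add]
  simp only [inv_pow, inv_inv, mul_assoc, inv_mul_cancel_left, inv_mul_cancel, mul_one]

section
variable {k : Type} [Field k] {n : ℕ} [NeZero n] {c d : ℕ} {G : AutP k n} {p q : Fin n}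

theorem CONST_umono (hCPF : Stmt_CPF) (h : Ctx c d G p q) (φ : AutP k n) (j : ℕ) :
    cp d G (CONST_cj G φ (j + 1)) ≤ cp d G (CONST_cj G φ j) := by
  obtain ⟨-, -, -, h4, -, -, h7⟩ := hCPF k n c d G p q h
  have hd : (d : ℚ) ≠ 0 := by
    have := h.d2
    positivity
  rw [CONST_cj_succ, mul_assoc]
  refine (h4 _ _).trans ?_
  rw [h7, h.mdeg_eq, mul_div_cancel₀ _ hd]

theorem CONST_vmono (hCPF : Stmt_CPF) (h : Ctx c d G p q) (φ : AutP k n) (j : ℕ) :
    cp d G⁻¹ (CONST_cj G φ j) ≤ cp d G⁻¹ (CONST_cj G φ (j + 1)) := by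
  obtain ⟨-, -, -, h4, -, -, h7⟩ := hCPF k n c d G⁻¹ q p h.symm
  have hd : (d : ℚ) ≠ 0 := by
    have := h.d2
    positivity
  have e : CONST_cj G φ j = G⁻¹ * (CONST_cj G φ (j + 1) * G⁻¹⁻¹) := by
    rw [CONST_cj_succ]
    simp [mul_assoc]
  conv_lhs => rw [e]
  refine (h4 _ _).trans ?_
  rw [h7, h.symm.mdeg_eq, mul_div_cancel₀ _ hd]

theorem CONST_bd (hCPF : Stmt_CPF) (hKAP : Stmt_KAP) (h : Ctx c d G p q) (φ : AutP k n)
    (B M : ℕ) (h0 : mdeg φ ≤ B) (hM : mdeg (CONST_cj G φ M) ≤ B) (j : ℕ) (hj : j ≤ M) :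
    cp d G (CONST_cj G φ j) ≤ B ∧ cp d G⁻¹ (CONST_cj G φ j) ≤ B ∧
      mdeg (CONST_cj G φ j) ≤ d * B := by
  have h1 : cp d G (CONST_cj G φ j) ≤ B := by
    have ha : Antitone fun j => cp d G (CONST_cj G φ j) :=
      antitone_nat_of_succ_le fun j => CONST_umono hCPF h φ j
    refine (ha (Nat.zero_le j)).trans ?_
    simp only [CONST_cj_zero]
    refine ((hCPF k n c d G p q h).2.1 φ).trans ?_
    exact_mod_cast h0
  have h2 : cp d G⁻¹ (CONST_cj G φ j) ≤ B := by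
    have ha : Monotone fun j => cp d G⁻¹ (CONST_cj G φ j) :=
      monotone_nat_of_le_succ fun j => CONST_vmono hCPF h φ j
    refine (ha hj).trans ?_
    refine ((hCPF k n c d G⁻¹ q p h.symm).2.1 _).trans ?_
    exact_mod_cast hM
  refine ⟨h1, h2, ?_⟩
  have h3 := (hKAP k n c d G p q h (CONST_cj G φ j)).2.2
  have h4 : (d : ℚ) * max (cp d G (CONST_cj G φ j)) (cp d G⁻¹ (CONST_cj G φ j)) ≤ d * B :=
    mul_le_mul_of_nonneg_left (max_le h1 h2) (by positivity)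
  have h5 := h3.trans h4
  exact_mod_cast h5

/-- the counting function has the value given by the constants -/
theorem CONST_floor (hCPF : Stmt_CPF) (h : Ctx c d G p q) (χ : AutP k n) (B1 : ℕ)
    (hχ : mdeg χ ≤ B1) :
    ((⌊cp d G χ * (d : ℚ) ^ (B1 + 1)⌋₊ : ℕ) : ℚ) = cp d G χ * (d : ℚ) ^ (B1 + 1) := by
  obtain ⟨N, hN⟩ := (hCPF k n c d G p q h).2.2.1 χ B1 hχ
  rw [hN, Nat.floor_natCast]

end

theorem p_CONST (hCPF : Stmt_CPF) (hKAP : Stmt_KAP) (hKEY : Stmt_KEY) (hPIG : Stmt_PIG) :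
    Stmt_CONST := by
  intro k _ n _ c d G p q h B L
  have hd2 := h.d2
  have hd : (d : ℚ) ≠ 0 := by positivity
  have hdpos : (0 : ℚ) < d := by positivity
  set B1 := d * B with hB1
  set E := B1 + 1 with hE
  refine ⟨(2 * B * d ^ E + 1) * (L + 2 * E + 2), ?_⟩
  intro M hM φ h0 h0' hM1 hM2
  change mdeg (CONST_cj G φ M) ≤ B at hM1
  change mdeg (CONST_cj G φ⁻¹ M) ≤ B at hM2
  have hpE : (0 : ℚ) < (d : ℚ) ^ E := by positivity
  -- the constants
  have hua : Antitone fun j => cp d G (CONST_cj G φ j) :=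
    antitone_nat_of_succ_le fun j => CONST_umono hCPF h φ j
  have hva : Monotone fun j => cp d G⁻¹ (CONST_cj G φ j) :=
    monotone_nat_of_le_succ fun j => CONST_vmono hCPF h φ j
  have hbd := CONST_bd hCPF hKAP h φ B M h0 hM1
  have hbd' := CONST_bd hCPF hKAP h φ⁻¹ B M h0' hM2
  set Nu : ℕ → ℕ := fun j => ⌊cp d G (CONST_cj G φ j) * (d : ℚ) ^ E⌋₊ with hNu
  set Nv : ℕ → ℕ := fun j => ⌊cp d G⁻¹ (CONST_cj G φ j) * (d : ℚ) ^ E⌋₊ with hNv
  have hNua : Antitone Nu := fun i j hij =>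
    Nat.floor_le_floor (mul_le_mul_of_nonneg_right (hua hij) hpE.le)
  have hNva : Monotone Nv := fun i j hij =>
    Nat.floor_le_floor (mul_le_mul_of_nonneg_right (hva hij) hpE.le)
  have hNuv : ∀ j, j ≤ M → (Nu j : ℚ) = cp d G (CONST_cj G φ j) * (d : ℚ) ^ E := fun j hj =>
    CONST_floor hCPF h _ B1 (hbd j hj).2.2
  have hNvv : ∀ j, j ≤ M → (Nv j : ℚ) = cp d G⁻¹ (CONST_cj G φ j) * (d : ℚ) ^ E := fun j hj =>
    CONST_floor hCPF h.symm _ B1 (hbd j hj).2.2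
  have hNuB : ∀ j, j ≤ M → Nu j ≤ B * d ^ E := by
    intro j hj
    have h1 : (Nu j : ℚ) ≤ B * (d : ℚ) ^ E := by
      rw [hNuv j hj]
      exact mul_le_mul_of_nonneg_right (hbd j hj).1 hpE.le
    exact_mod_cast h1
  have hNvB : ∀ j, j ≤ M → Nv j ≤ B * d ^ E := by
    intro j hj
    have h1 : (Nv j : ℚ) ≤ B * (d : ℚ) ^ E := by
      rw [hNvv j hj]
      exact mul_le_mul_of_nonneg_right (hbd j hj).2.1 hpE.le
    exact_mod_cast h1
  obtain ⟨J', hJ'1, hJ'2⟩ := hPIG (fun j => Nv j + (B * d ^ E - Nu j)) (2 * B * d ^ E)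
    (L + 2 * E + 2) M
    (fun j _ => by
      have h1 := hNua (Nat.le_succ j)
      have h2 := hNva (Nat.le_succ j)
      simp only [Nat.succ_eq_add_one] at h1 h2
      show Nv j + (B * d ^ E - Nu j) ≤ Nv (j + 1) + (B * d ^ E - Nu (j + 1))
      omega)
    (by
      have h1 := hNvB M le_rfl
      show Nv M + (B * d ^ E - Nu M) ≤ 2 * B * d ^ E
      have h2 : 2 * B * d ^ E = B * d ^ E + B * d ^ E := by ring
      omega)
    hM
  have hJ'3 : Nu (J' + (L + 2 * E + 2)) = Nu J' ∧ Nv (J' + (L + 2 * E + 2)) = Nv J' := by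
    have h1 := hNua (Nat.le_add_right J' (L + 2 * E + 2))
    have h2 := hNva (Nat.le_add_right J' (L + 2 * E + 2))
    have h3 := hNuB J' (by omega)
    have h4 := hNuB (J' + (L + 2 * E + 2)) hJ'1
    omega
  have hu : ∀ j, J' ≤ j → j ≤ J' + (L + 2 * E + 2) →
      cp d G (CONST_cj G φ j) = cp d G (CONST_cj G φ J') := by
    intro j hj1 hj2
    have h1 := hNuv J' (by omega)
    have h2 := hNuv (J' + (L + 2 * E + 2)) hJ'1
    rw [hJ'3.1, h1] at h2
    have h3 := mul_right_cancel₀ hpE.ne' h2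
    have h4 : cp d G (CONST_cj G φ j) ≤ cp d G (CONST_cj G φ J') := hua hj1
    have h5 : cp d G (CONST_cj G φ (J' + (L + 2 * E + 2))) ≤ cp d G (CONST_cj G φ j) := hua hj2
    rw [← h3] at h5
    exact le_antisymm h4 h5
  have hv : ∀ j, J' ≤ j → j ≤ J' + (L + 2 * E + 2) →
      cp d G⁻¹ (CONST_cj G φ j) = cp d G⁻¹ (CONST_cj G φ J') := by
    intro j hj1 hj2
    have h1 := hNvv J' (by omega)
    have h2 := hNvv (J' + (L + 2 * E + 2)) hJ'1
    rw [hJ'3.2, h1] at h2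
    have h3 := mul_right_cancel₀ hpE.ne' h2
    have h4 : cp d G⁻¹ (CONST_cj G φ J') ≤ cp d G⁻¹ (CONST_cj G φ j) := hva hj1
    have h5 : cp d G⁻¹ (CONST_cj G φ j) ≤ cp d G⁻¹ (CONST_cj G φ (J' + (L + 2 * E + 2))) :=
      hva hj2
    rw [← h3] at h5
    exact le_antisymm h5 h4
  -- the values at the middle
  have hkey : ∀ j, J' + E + 1 ≤ j → j ≤ J' + E + 1 + L → ∃ b : ℤ,
      (∀ i, dg (CONST_cj G φ j * G ^ b) i = 1) ∧
        cp d G (CONST_cj G φ J') * (d : ℚ) ^ b = 1 := by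
    intro j hj1 hj2
    have hjM : j ≤ M := by omega
    have hinv : mdeg (CONST_cj G φ j)⁻¹ ≤ B1 := by
      rw [CONST_cj_inv]
      exact (hbd' j hjM).2.2
    have h1 : cp d G (CONST_cj G φ j)⁻¹ * cp d G (CONST_cj G φ j) = 1 := by
      have e1 : G ^ (B1 + 1) * CONST_cj G φ (j - E) * (G ^ (B1 + 1))⁻¹ = CONST_cj G φ j := by
        rw [← CONST_cj_add]
        congr 1
        omega
      have h2 := hKEY k n c d G p q h (CONST_cj G φ j)⁻¹ (CONST_cj G φ (j - E)) B1 hinv (by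
        rw [← CONST_cj_succ]
        exact (hu _ (by omega) (by omega)).trans (hu _ (by omega) (by omega)).symm)
      rw [e1, inv_mul_cancel, (hCPF k n c d G p q h).2.2.2.2.1] at h2
      rw [hu j (by omega) (by omega), ← hu (j - E) (by omega) (by omega)]
      exact h2.symm
    have h1' : cp d G⁻¹ (CONST_cj G φ j)⁻¹ * cp d G⁻¹ (CONST_cj G φ j) = 1 := by
      have e1 : G⁻¹ ^ (B1 + 1) * CONST_cj G φ (j + E) * (G⁻¹ ^ (B1 + 1))⁻¹ = CONST_cj G φ j := by
        rw [add_comm j E]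
        exact CONST_back G φ E j
      have h2 := hKEY k n c d G⁻¹ q p h.symm (CONST_cj G φ j)⁻¹ (CONST_cj G φ (j + E)) B1 hinv
        (by
          have e2 : G⁻¹ * CONST_cj G φ (j + E) * G⁻¹⁻¹ = CONST_cj G φ (j + E - 1) := by
            have e3 : j + E = 1 + (j + E - 1) := by omega
            have := CONST_back G φ 1 (j + E - 1)
            rw [← e3, pow_one] at this
            exact this
          rw [e2]
          exact (hv _ (by omega) (by omega)).trans (hv _ (by omega) (by omega)).symm)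
      rw [e1, inv_mul_cancel, (hCPF k n c d G⁻¹ q p h.symm).2.2.2.2.1] at h2
      rw [hv j (by omega) (by omega), ← hv (j + E) (by omega) (by omega)]
      exact h2.symm
    have h3 := (hKAP k n c d G p q h (CONST_cj G φ j)).1
    have h4 := (hKAP k n c d G p q h (CONST_cj G φ j)⁻¹).1
    have h5 : (cp d G (CONST_cj G φ j) * cp d G⁻¹ (CONST_cj G φ j)) *
        (cp d G (CONST_cj G φ j)⁻¹ * cp d G⁻¹ (CONST_cj G φ j)⁻¹) = 1 := by
      calc _ = (cp d G (CONST_cj G φ j)⁻¹ * cp d G (CONST_cj G φ j)) *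
          (cp d G⁻¹ (CONST_cj G φ j)⁻¹ * cp d G⁻¹ (CONST_cj G φ j)) := by ring
        _ = 1 := by rw [h1, h1', one_mul]
    have h6 : cp d G (CONST_cj G φ j) * cp d G⁻¹ (CONST_cj G φ j) = 1 := by
      apply le_antisymm _ h3
      calc cp d G (CONST_cj G φ j) * cp d G⁻¹ (CONST_cj G φ j)
          = (cp d G (CONST_cj G φ j) * cp d G⁻¹ (CONST_cj G φ j)) * 1 := (mul_one _).symm
        _ ≤ (cp d G (CONST_cj G φ j) * cp d G⁻¹ (CONST_cj G φ j)) *
            (cp d G (CONST_cj G φ j)⁻¹ * cp d G⁻¹ (CONST_cj G φ j)⁻¹) :=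
            mul_le_mul_of_nonneg_left h4 (by linarith)
        _ = 1 := h5
    obtain ⟨b, hb1, hb2⟩ := (hKAP k n c d G p q h (CONST_cj G φ j)).2.1 h6
    refine ⟨b, hb1, ?_⟩
    rw [← hu j (by omega) (by omega)]
    exact hb2
  obtain ⟨b, -, hb⟩ := hkey (J' + E + 1) le_rfl (by omega)
  refine ⟨J' + E + 1, b, ?_⟩
  intro j hj1 hj2 i
  obtain ⟨b', hb'1, hb'2⟩ := hkey j hj1 hj2
  have hbb : b = b' := by
    have h1 : cp d G (CONST_cj G φ J') * (d : ℚ) ^ b =
        cp d G (CONST_cj G φ J') * (d : ℚ) ^ b' := by rw [hb, hb'2]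
    have h2 : cp d G (CONST_cj G φ J') ≠ 0 := by
      intro h3
      rw [h3, zero_mul] at hb
      exact zero_ne_one hb
    have h3 := mul_left_cancel₀ h2 h1
    have hd1 : (1 : ℚ) < d := by
      have : 1 < d := by omega
      exact_mod_cast this
    exact zpow_right_injective₀ hdpos hd1.ne' h3
  rw [hbb]
  exact hb'1 i

end Pool.Agent.Work.MP_b2cdcf_wpd
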