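import Pool.Agent.Work.MP_b2cdcf_wpd.Interface

set_option autoImplicit false

open MvPolynomial

noncomputable section

namespace Pool.Agent.Work.MP_b2cdcf_wpd

theorem p_CP (hV : Stmt_VEE) : Stmt_CP := by
  intro k _ n _ c d G p q hC φ m hm
  obtain ⟨b, -, hup, -, hb⟩ := hV k n c d G p q hC φ
  have hd := hC.d2
  have habs := abs_le.1 hb
  have hdom : ∀ j : ℕ, mdeg φ < j → Dom c q (φ * G ^ j) := by
    intro j hj
    have h := hup (j : ℤ) (by omega)
    rwa [zpow_natCast] at h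
  refine ⟨hdom m hm, ?_⟩
  obtain ⟨t, ht⟩ := Nat.exists_eq_add_of_le (show mdeg φ + 1 ≤ m from hm)
  have h1 := (grow hC.h1 _ (hdom (mdeg φ + 1) (by omega)) t).2
  have h2 : φ * G ^ (mdeg φ + 1) * G ^ t = φ * G ^ m := by
    rw [mul_assoc, ← pow_add, ← ht]
  rw [h2] at h1
  have hd0 : (d : ℚ) ≠ 0 := by
    have : d ≠ 0 := by omega
    exact_mod_cast this
  unfold cp
  have h3 : (d : ℚ) ^ m = (d : ℚ) ^ (mdeg φ + 1) * (d : ℚ) ^ t := by rw [← pow_add, ← ht]
  rw [h1, h3]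
  push_cast
  field_simp

end Pool.Agent.Work.MP_b2cdcf_wpd
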