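import Pool.Agent.Work.MP_b2cdcf_wpd.Interface

set_option autoImplicit false

open MvPolynomial

noncomputable section

namespace Pool.Agent.Work.MP_b2cdcf_wpd

theorem p_CPF (hP : Stmt_CP) : Stmt_CPF := by
  intro k _ n _ c d G p q hC
  have hd := hC.d2
  have hd0 : (0 : ℚ) < d := by
    have : 0 < d := by omega
    exact_mod_cast this
  have hcp : ∀ (φ : AutP k n) (m : ℕ), mdeg φ < m →
      (mdeg (φ * G ^ m) : ℚ) = cp d G φ * (d : ℚ) ^ m := fun φ m hm => (hP k n c d G p q hC φ m hm).2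
  have hpow : ∀ m : ℕ, mdeg (G ^ m) ≤ d ^ m := by
    intro m
    induction m with
    | zero => rw [pow_zero, pow_zero, mdeg_one]
    | succ m ih =>
      rw [pow_succ, pow_succ]
      exact (mdeg_mul_le _ _).trans (Nat.mul_le_mul ih hC.mdeg_eq.le)
  have h6 : ∀ φ, cp d G (φ * G) = cp d G φ * d := by
    intro φ
    have h1 := hcp (φ * G) (max (mdeg (φ * G)) (mdeg φ) + 1) (by omega)
    have h2 := hcp φ (max (mdeg (φ * G)) (mdeg φ) + 1 + 1) (by omega)
    have h3 : φ * G * G ^ (max (mdeg (φ * G)) (mdeg φ) + 1) =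
        φ * G ^ (max (mdeg (φ * G)) (mdeg φ) + 1 + 1) := by rw [mul_assoc, ← pow_succ']
    rw [h3] at h1
    rw [h1, pow_succ (d : ℚ) (max (mdeg (φ * G)) (mdeg φ) + 1)] at h2
    have h4 : (0 : ℚ) < (d : ℚ) ^ (max (mdeg (φ * G)) (mdeg φ) + 1) := pow_pos hd0 _
    have h5 : cp d G (φ * G) * (d : ℚ) ^ (max (mdeg (φ * G)) (mdeg φ) + 1) =
        cp d G φ * d * (d : ℚ) ^ (max (mdeg (φ * G)) (mdeg φ) + 1) := by
      rw [h2]; ring
    exact mul_right_cancel₀ h4.ne' h5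
  refine ⟨?_, ?_, ?_, ?_, ?_, h6, ?_⟩
  · intro φ
    unfold cp
    apply div_pos
    · have := one_le_mdeg (φ * G ^ (mdeg φ + 1))
      have h : 0 < mdeg (φ * G ^ (mdeg φ + 1)) := by omega
      exact_mod_cast h
    · exact pow_pos hd0 _
  · intro φ
    unfold cp
    rw [div_le_iff₀ (pow_pos hd0 _)]
    have h : mdeg (φ * G ^ (mdeg φ + 1)) ≤ mdeg φ * d ^ (mdeg φ + 1) :=
      (mdeg_mul_le _ _).trans (Nat.mul_le_mul_left _ (hpow _))
    exact_mod_cast h
  · intro φ B hB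
    exact ⟨mdeg (φ * G ^ (B + 1)), (hcp φ (B + 1) (by omega)).symm⟩
  · intro ψ φ
    set m := max (mdeg (ψ * φ)) (mdeg φ) + 1 with hm
    have h1 := hcp (ψ * φ) m (by omega)
    have h2 := hcp φ m (by omega)
    have h3 : mdeg (ψ * φ * G ^ m) ≤ mdeg ψ * mdeg (φ * G ^ m) := by
      rw [mul_assoc]
      exact mdeg_mul_le _ _
    have h4 : (mdeg (ψ * φ * G ^ m) : ℚ) ≤ mdeg ψ * mdeg (φ * G ^ m) := by exact_mod_cast h3
    rw [h1, h2, ← mul_assoc] at h4
    exact le_of_mul_le_mul_right h4 (pow_pos hd0 _)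
  · have h1 := hcp 1 2 (by rw [mdeg_one]; norm_num)
    have hnd : ¬ Dom c p (1 : AutP k n) := by
      intro h
      have h2 := h q hC.pq.symm
      have h3 : ∀ i, dg (1 : AutP k n) i = 1 := by
        intro i
        unfold dg
        rw [AlgEquiv.one_apply, totalDegree_X]
      rw [h3, h3] at h2
      have := hC.c2
      omega
    have h2 := hC.h1.mul _ (hC.h1.dom _ hnd)
    have h3 : (1 : AutP k n) * G * G = 1 * G ^ 2 := by rw [mul_assoc, ← pow_two]
    rw [h3, one_mul, one_mul, hC.mdeg_eq] at h2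
    rw [one_mul, h2] at h1
    push_cast at h1
    have h4 : cp d G 1 * (d : ℚ) ^ 2 = 1 * (d : ℚ) ^ 2 := by rw [← h1]; ring
    exact mul_right_cancel₀ (pow_pos hd0 2).ne' h4
  · intro φ
    have h := h6 (φ * G⁻¹)
    rw [inv_mul_cancel_right] at h
    rw [h, mul_div_assoc, div_self hd0.ne', mul_one]

end Pool.Agent.Work.MP_b2cdcf_wpd
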