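import Pool.Agent.Work.MP_b2cdcf_wpd.Interface

/-!
# Block CTX: the degrees of the components of `φ * F` and `φ * F⁻¹`
-/

set_option autoImplicit false

open MvPolynomial

noncomputable section

namespace Pool.Agent.Work.MP_b2cdcf_wpd

theorem CTX_pow {k : Type} [Field k] {n : ℕ} {f : MvPolynomial (Fin n) k} (hf : f ≠ 0) (m : ℕ) :
    (f ^ m).totalDegree = m * f.totalDegree := by
  induction m with
  | zero => simp
  | succ m ih =>
    rw [pow_succ, totalDegree_mul_of_isDomain (pow_ne_zero _ hf) hf, ih]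
    ring

theorem CTX_half {k : Type} [Field k] {n : ℕ} [NeZero n] (hJ : Stmt_JAC) (d : ℕ) (hn : 2 ≤ n)
    (hd : 2 * n ≤ d) (hdk : (d : k) ≠ 0) (G : AutP k n) (p q : Fin n) (hpq : p ≠ q)
    (hq : ∀ φ : AutP k n, ∃ Q : MvPolynomial (Fin n) k,
      Q.totalDegree = (∑ j ∈ Finset.univ.erase p, φ (X j) ^ d).totalDegree ∧
        (φ * G) (X q) = φ (X p) + Q)
    (hi : ∀ i, i ≠ q → ∃ i', i' ≠ p ∧ ∀ φ : AutP k n, (φ * G) (X i) = φ (X i')) :
    Half (d - n + 1) d G p q := by
  -- the largest degree away from p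
  have hmax : ∀ φ : AutP k n, ∃ i0, i0 ≠ p ∧ ∀ i, i ≠ p → dg φ i ≤ dg φ i0 := by
    intro φ
    obtain ⟨i0, hi0, h⟩ := Finset.exists_max_image (Finset.univ.erase p) (fun i => dg φ i)
      ⟨q, Finset.mem_erase.2 ⟨hpq.symm, Finset.mem_univ _⟩⟩
    exact ⟨i0, (Finset.mem_erase.1 hi0).1, fun i hi =>
      h i (Finset.mem_erase.2 ⟨hi, Finset.mem_univ _⟩)⟩
  have hjac : ∀ (φ : AutP k n) (i0 : Fin n), i0 ≠ p → (∀ i, i ≠ p → dg φ i ≤ dg φ i0) →
      (d - n + 1) * dg φ i0 + (n - 1) ≤ (∑ j ∈ Finset.univ.erase p, φ (X j) ^ d).totalDegree := by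
    intro φ i0 hi0 h
    exact hJ k n d φ p (dg φ i0) (by omega) hdk ⟨i0, hi0, rfl⟩ h
  -- not dominated by p
  have hnd : ∀ (φ : AutP k n), ¬ Dom (d - n + 1) p φ → ∃ i0, i0 ≠ p ∧
      (∀ i, i ≠ p → dg φ i ≤ dg φ i0) ∧ dg φ p < (d - n + 1) * dg φ i0 ∧
      (d - n + 1) * dg φ i0 + (n - 1) ≤ dg (φ * G) q := by
    intro φ hφ
    obtain ⟨i0, hi0, hm⟩ := hmax φ
    have h1 := hjac φ i0 hi0 hm
    have h2 : dg φ p < (d - n + 1) * dg φ i0 := by
      unfold Dom at hφ
      push Not at hφ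
      obtain ⟨i, hip, hlt⟩ := hφ
      exact lt_of_lt_of_le hlt (Nat.mul_le_mul_left _ (hm i hip))
    refine ⟨i0, hi0, hm, h2, ?_⟩
    obtain ⟨Q, hQ, he⟩ := hq φ
    have h3 : (φ (X p)).totalDegree < Q.totalDegree := by
      rw [hQ]
      have : dg φ p < (∑ j ∈ Finset.univ.erase p, φ (X j) ^ d).totalDegree := by omega
      exact this
    have h4 : dg (φ * G) q = Q.totalDegree := by
      unfold dg
      rw [he]
      exact totalDegree_add_eq_right_of_totalDegree_lt h3
    rw [h4, hQ]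
    exact h1
  -- dominated by q
  have hdq : ∀ (φ : AutP k n), Dom (d - n + 1) q φ → dg (φ * G) q = d * dg φ q := by
    intro φ hφ
    have hc2 : 2 ≤ d - n + 1 := by omega
    have hpos := one_le_dg φ q
    have h1 : (∑ j ∈ Finset.univ.erase p, φ (X j) ^ d).totalDegree = d * dg φ q := by
      rw [← Finset.add_sum_erase (Finset.univ.erase p) (fun j => φ (X j) ^ d)
        (Finset.mem_erase.2 ⟨hpq.symm, Finset.mem_univ q⟩)]
      have hA : (φ (X q) ^ d).totalDegree = d * dg φ q := by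
        have hne : φ (X q) ≠ 0 := by
          intro h
          unfold dg at hpos
          rw [h, totalDegree_zero] at hpos
          omega
        rw [CTX_pow hne]
        rfl
      have hB : (∑ x ∈ (Finset.univ.erase p).erase q, φ (X x) ^ d).totalDegree
          ≤ d * (dg φ q - 1) := by
        refine (totalDegree_finsetSum _ _).trans (Finset.sup_le fun j hj => ?_)
        refine (totalDegree_pow _ _).trans ?_
        refine Nat.mul_le_mul_left _ ?_
        have := hφ.lt hc2 (Finset.mem_erase.1 hj).1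
        unfold dg at this ⊢
        omega
      have hC : (∑ x ∈ (Finset.univ.erase p).erase q, φ (X x) ^ d).totalDegree
          < (φ (X q) ^ d).totalDegree := by
        rw [hA]
        refine lt_of_le_of_lt hB ?_
        exact Nat.mul_lt_mul_of_pos_left (by omega) (by omega)
      rw [totalDegree_add_eq_left_of_totalDegree_lt hC, hA]
    obtain ⟨Q, hQ, he⟩ := hq φ
    have h3 : (φ (X p)).totalDegree < Q.totalDegree := by
      rw [hQ, h1]
      have h4 := hφ.lt hc2 hpq
      have h5 : dg φ q ≤ d * dg φ q := Nat.le_mul_of_pos_left _ (by omega)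
      have : dg φ p < d * dg φ q := lt_of_lt_of_le h4 h5
      exact this
    unfold dg
    rw [he, totalDegree_add_eq_right_of_totalDegree_lt h3, hQ, h1]
    rfl
  have hstep : ∀ φ : AutP k n, Dom (d - n + 1) q φ → Dom (d - n + 1) q (φ * G) := by
    intro φ hφ i hiq
    rw [hdq φ hφ]
    obtain ⟨i', hi', he⟩ := hi i hiq
    have h1 : dg (φ * G) i = dg φ i' := by
      unfold dg
      rw [he]
    rw [h1]
    by_cases h2 : i' = q
    · rw [h2]
      exact Nat.mul_le_mul_right _ (by omega)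
    · exact (hφ i' h2).trans (Nat.le_mul_of_pos_left _ (by omega))
  refine ⟨?_, ?_, ?_, hstep, ?_, ?_, ?_⟩
  · intro φ hφ i hiq
    obtain ⟨i0, hi0, hm, h1, h2⟩ := hnd φ hφ
    obtain ⟨i', hi', he⟩ := hi i hiq
    have h3 : dg (φ * G) i = dg φ i' := by
      unfold dg
      rw [he]
    rw [h3]
    calc (d - n + 1) * dg φ i' ≤ (d - n + 1) * dg φ i0 := Nat.mul_le_mul_left _ (hm i' hi')
      _ ≤ _ := by omega
  · intro φ hφ i hip
    obtain ⟨i0, hi0, hm, h1, h2⟩ := hnd φ hφ
    exact (Nat.add_le_add_right (Nat.mul_le_mul_left _ (hm i hip)) _).trans h2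
  · intro φ hφ
    obtain ⟨i0, hi0, hm, h1, h2⟩ := hnd φ hφ
    refine lt_of_lt_of_le ?_ (dg_le (φ * G) q)
    refine lt_of_lt_of_le ?_ h2
    have h3 : dg φ i0 ≤ (d - n + 1) * dg φ i0 := Nat.le_mul_of_pos_left _ (by omega)
    obtain ⟨i, hie⟩ := exists_dg φ
    rw [hie]
    by_cases h4 : i = p
    · rw [h4]
      omega
    · have := hm i h4
      omega
  · intro φ hφ
    rw [(hstep φ hφ).mdeg_eq (by omega), hdq φ hφ, hφ.mdeg_eq (by omega)]
  · -- dg G q = d
    have h1 : ∀ i, dg (1 : AutP k n) i = 1 := by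
      intro i
      unfold dg
      rw [AlgEquiv.one_apply, totalDegree_X]
    have h2 := hjac 1 q hpq.symm (fun i _ => by rw [h1, h1])
    rw [h1] at h2
    have h3 : (∑ j ∈ Finset.univ.erase p, (1 : AutP k n) (X j) ^ d).totalDegree ≤ d := by
      refine (totalDegree_finsetSum _ _).trans (Finset.sup_le fun j hj => ?_)
      refine (totalDegree_pow _ _).trans ?_
      rw [AlgEquiv.one_apply, totalDegree_X, mul_one]
    obtain ⟨Q, hQ, he⟩ := hq 1
    have h4 : ((1 : AutP k n) (X p)).totalDegree < Q.totalDegree := by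
      rw [hQ, AlgEquiv.one_apply, totalDegree_X]
      omega
    have h5 : dg G q = Q.totalDegree := by
      unfold dg
      rw [one_mul] at he
      rw [he]
      exact totalDegree_add_eq_right_of_totalDegree_lt h4
    rw [h5, hQ]
    omega
  · intro i hiq
    obtain ⟨i', hi', he⟩ := hi i hiq
    have h1 := he 1
    rw [one_mul] at h1
    unfold dg
    rw [h1, AlgEquiv.one_apply, totalDegree_X]

theorem p_CTX (hJ : Stmt_JAC) : Stmt_CTX := by
  intro k _ n d _ hn hd hdk
  have h01 : (0 : Fin n) ≠ 1 := by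
    intro h
    have h1 := congrArg Fin.val h
    rw [Fin.val_zero, Fin.val_one'] at h1
    rw [Nat.mod_eq_of_lt (by omega)] at h1
    exact absurd h1 (by norm_num)
  refine ⟨h01, by omega, by omega, ?_, ?_, ?_⟩
  · have h1 : d + 2 ≤ 2 * (d - n + 1) := by omega
    have h2 : d < (d - n + 1) * (d - n + 1) := by
      have h3 : 2 * (d - n + 1) ≤ (d - n + 1) * (d - n + 1) := Nat.mul_le_mul_right _ (by omega)
      omega
    exact h2
  · refine CTX_half hJ d hn hd hdk _ _ _ h01 ?_ ?_
    · intro φ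
      refine ⟨_, rfl, ?_⟩
      rw [aut_mul_apply, FF_one, map_add, map_sum]
      simp only [map_pow]
    · intro i hi
      refine ⟨i - 1, sub_ne_zero.2 hi, fun φ => ?_⟩
      rw [aut_mul_apply, FF_ne _ hi]
  · refine CTX_half hJ d hn hd hdk _ _ _ h01.symm ?_ ?_
    · intro φ
      refine ⟨- ∑ j ∈ Finset.univ.erase 1, φ (X j) ^ d, totalDegree_neg _, ?_⟩
      rw [aut_mul_apply, FF_inv_zero, map_sub, map_sum, sub_eq_add_neg]
      simp only [map_pow]
    · intro i hi
      refine ⟨i + 1, ?_, fun φ => ?_⟩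
      · intro h
        exact hi (by simpa using h)
      rw [aut_mul_apply, FF_inv_ne _ hi]

end Pool.Agent.Work.MP_b2cdcf_wpd
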