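import Pool.Agent.Work.MP_b2cdcf_wpd.Interface

/-! # Block JAC: the Jacobian inequality (helper47) -/

set_option autoImplicit false

open MvPolynomial

noncomputable section

namespace Pool.Agent.Work.MP_b2cdcf_wpd

variable {k : Type} [Field k] {n : ℕ}

theorem JAC_pderiv (l : Fin n) (p : MvPolynomial (Fin n) k) :
    (pderiv l p).totalDegree ≤ p.totalDegree - 1 := by
  apply Finset.sup_le
  intro m hm
  rw [mem_support_iff, coeff_pderiv] at hm
  have h1 : coeff (m + Finsupp.single l 1) p ≠ 0 := left_ne_zero_of_mul hm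
  have h2 := le_totalDegree (mem_support_iff.2 h1)
  have h3 : (m + Finsupp.single l 1).sum (fun _ e => e) = (m.sum fun _ e => e) + 1 := by
    rw [Finsupp.sum_add_index' (fun _ => rfl) (fun _ _ _ => rfl),
      Finsupp.sum_single_index rfl]
  rw [h3] at h2
  omega

theorem JAC_chain (φ : AutP k n) (l : Fin n) (p : MvPolynomial (Fin n) k) :
    pderiv l (φ p) = ∑ i, φ (pderiv i p) * pderiv l (φ (X i)) := by
  induction p using MvPolynomial.induction_on with
  | C a =>
    have h1 : φ (C a) = C a := φ.commutes a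
    rw [h1, pderiv_C]
    symm
    apply Finset.sum_eq_zero
    intro i _
    rw [pderiv_C, map_zero, zero_mul]
  | add p q hp hq =>
    rw [map_add, map_add, hp, hq, ← Finset.sum_add_distrib]
    refine Finset.sum_congr rfl fun i _ => ?_
    rw [map_add, map_add, add_mul]
  | mul_X p j hp =>
    rw [map_mul, pderiv_mul, hp, Finset.sum_mul]
    have h2 : ∀ i, φ (pderiv i (p * X j)) * pderiv l (φ (X i)) =
        φ (pderiv i p) * pderiv l (φ (X i)) * φ (X j) +
          φ p * (φ (pderiv i (X j)) * pderiv l (φ (X i))) := by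
      intro i
      rw [pderiv_mul, map_add, map_mul, map_mul]
      ring
    rw [Finset.sum_congr rfl fun i _ => h2 i, Finset.sum_add_distrib, ← Finset.mul_sum]
    congr 2
    rw [Finset.sum_eq_single j]
    · rw [pderiv_X_self, map_one, one_mul]
    · intro i _ hi
      rw [pderiv_X_of_ne hi.symm, map_zero, zero_mul]
    · intro h
      exact absurd (Finset.mem_univ j) h

/-- the Jacobian matrix -/
def JAC_J (φ : AutP k n) : Matrix (Fin n) (Fin n) (MvPolynomial (Fin n) k) :=
  Matrix.of fun i l => pderiv l (φ (X i))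

theorem JAC_det (φ : AutP k n) : (JAC_J φ).det ≠ 0 := by
  let K : Matrix (Fin n) (Fin n) (MvPolynomial (Fin n) k) :=
    Matrix.of fun i m => φ (pderiv m (φ⁻¹ (X i)))
  have h1 : K * JAC_J φ = 1 := by
    ext1 i l
    rw [Matrix.mul_apply]
    have h2 := JAC_chain φ l (φ⁻¹ (X i))
    have h3 : φ (φ⁻¹ (X i)) = X i := by
      show (φ * φ⁻¹) (X i) = X i
      rw [mul_inv_cancel]
      rfl
    rw [h3] at h2
    calc ∑ m, K i m * JAC_J φ m l = pderiv l (X i) := h2.symm
      _ = (1 : Matrix (Fin n) (Fin n) (MvPolynomial (Fin n) k)) i l := by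
        by_cases hil : i = l
        · subst hil
          rw [pderiv_X_self, Matrix.one_apply_eq]
        · rw [pderiv_X_of_ne hil, Matrix.one_apply_ne hil]
  intro h0
  have h4 := congrArg Matrix.det h1
  rw [Matrix.det_mul, h0, mul_zero, Matrix.det_one] at h4
  exact zero_ne_one h4

theorem JAC_deg (A : Matrix (Fin n) (Fin n) (MvPolynomial (Fin n) k)) (r : Fin n → ℕ)
    (h : ∀ i l, (A i l).totalDegree ≤ r i) : A.det.totalDegree ≤ ∑ i, r i := by
  rw [Matrix.det_apply]
  refine totalDegree_finsetSum_le fun σ _ => ?_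
  have h1 : (Equiv.Perm.sign σ • ∏ i, A (σ i) i).totalDegree =
      (∏ i, A (σ i) i).totalDegree := by
    rcases Int.units_eq_one_or (Equiv.Perm.sign σ) with hs | hs
    · rw [hs, one_smul]
    · rw [hs, Units.neg_smul, one_smul, totalDegree_neg]
  rw [h1]
  refine (totalDegree_finsetProd _ _).trans ?_
  calc ∑ i, (A (σ i) i).totalDegree ≤ ∑ i, r (σ i) := Finset.sum_le_sum fun i _ => h _ _
    _ = ∑ i, r i := Equiv.sum_comp σ r

theorem JAC_arith (m e M T : ℕ) (hM : 1 ≤ M) (h : (m + 1 + e) * M ≤ (T - 1) + m * (M - 1)) :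
    (e + 1) * M + (m + 1) ≤ T := by
  obtain ⟨M', rfl⟩ : ∃ M', M = M' + 1 := ⟨M - 1, by omega⟩
  have h1 : M' + 1 - 1 = M' := rfl
  rw [h1] at h
  have h2 : (m + 1 + e) * (M' + 1) = m * M' + e * M' + M' + m + e + 1 := by ring
  have h3 : (e + 1) * (M' + 1) = e * M' + M' + e + 1 := by ring
  rw [h2] at h
  rw [h3]
  omega

theorem p_JAC : Stmt_JAC := by
  intro k _ n d φ j M hnd hd hex hle
  obtain ⟨i₀, hi₀, hM⟩ := hex
  have hM1 : 1 ≤ M := by rw [← hM]; exact one_le_dg φ i₀
  set Q := ∑ i ∈ Finset.univ.erase j, φ (X i) ^ d with hQ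
  have hn2 : 2 ≤ n := by
    have h1 := i₀.isLt
    have h2 := j.isLt
    have h3 : (i₀ : ℕ) ≠ j := fun h => hi₀ (Fin.ext h)
    omega
  -- a nonzero minor
  obtain ⟨l, hl⟩ : ∃ l, (JAC_J φ).adjugate l j ≠ 0 := by
    by_contra hcon
    push Not at hcon
    have h1 := congrFun (congrFun (Matrix.mul_adjugate (JAC_J φ)) j) j
    rw [Matrix.mul_apply, Matrix.smul_apply, Matrix.one_apply_eq, smul_eq_mul, mul_one] at h1
    apply JAC_det φ
    rw [← h1]
    exact Finset.sum_eq_zero fun i _ => by rw [hcon i, mul_zero]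
  rw [Matrix.adjugate_apply] at hl
  set J' := (JAC_J φ).updateRow j (Pi.single l 1) with hJ'
  let c : Fin n → MvPolynomial (Fin n) k := fun i =>
    if i = j then 0 else (d : MvPolynomial (Fin n) k) * φ (X i) ^ (d - 1)
  have hrow : (fun l' => pderiv l' Q) = ∑ i, c i • J' i := by
    funext l'
    rw [Finset.sum_apply, ← Finset.add_sum_erase _ _ (Finset.mem_univ j)]
    have h1 : (c j • J' j) l' = 0 := by
      simp only [Pi.smul_apply, smul_eq_mul, c, if_pos, zero_mul]
    rw [h1, zero_add, hQ, map_sum]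
    refine Finset.sum_congr rfl fun i hi => ?_
    have hij := (Finset.mem_erase.1 hi).1
    rw [pderiv_pow, Pi.smul_apply, smul_eq_mul, hJ', Matrix.updateRow_ne hij]
    simp only [c, if_neg hij]
    rfl
  have hdet : (J'.updateRow i₀ (fun l' => pderiv l' Q)).det =
      (d : MvPolynomial (Fin n) k) * φ (X i₀) ^ (d - 1) * J'.det := by
    rw [hrow, Matrix.det_updateRow_sum, smul_eq_mul]
    simp only [c, if_neg hi₀]
  have hdC : (d : MvPolynomial (Fin n) k) = C (d : k) := by simp
  have hX : φ (X i₀) ≠ 0 := by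
    intro h
    have h1 := one_le_dg φ i₀
    unfold dg at h1
    rw [h, totalDegree_zero] at h1
    omega
  have hd0 : (C (d : k) : MvPolynomial (Fin n) k) ≠ 0 := by
    rw [Ne, C_eq_zero]
    exact hd
  have hlow : (d - 1) * M ≤ ((d : MvPolynomial (Fin n) k) * φ (X i₀) ^ (d - 1) * J'.det).totalDegree := by
    rw [hdC, totalDegree_mul_of_isDomain (mul_ne_zero hd0 (pow_ne_zero _ hX)) hl,
      totalDegree_mul_of_isDomain hd0 (pow_ne_zero _ hX), totalDegree_C, zero_add]
    have h2 : (φ (X i₀) ^ (d - 1)).totalDegree = (d - 1) * M := by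
      have h3 : ∀ m : ℕ, (φ (X i₀) ^ m).totalDegree = m * M := by
        intro m
        induction m with
        | zero => simp
        | succ m ih =>
          rw [pow_succ, totalDegree_mul_of_isDomain (pow_ne_zero _ hX) hX, ih, ← hM]
          unfold dg
          ring
      exact h3 _
    rw [h2]
    exact Nat.le_add_right _ _
  have hup := JAC_deg (J'.updateRow i₀ (fun l' => pderiv l' Q))
    (fun i => if i = i₀ then Q.totalDegree - 1 else if i = j then 0 else M - 1) (by
      intro i l'
      by_cases hi : i = i₀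
      · subst hi
        rw [Matrix.updateRow_self, if_pos rfl]
        exact JAC_pderiv l' Q
      · rw [Matrix.updateRow_ne hi, if_neg hi]
        by_cases hij : i = j
        · subst hij
          rw [hJ', Matrix.updateRow_self, if_pos rfl]
          by_cases hll : l' = l
          · subst hll
            rw [Pi.single_eq_same]
            exact le_of_eq totalDegree_one
          · rw [Pi.single_eq_of_ne hll]
            exact le_of_eq totalDegree_zero
        · rw [hJ', Matrix.updateRow_ne hij, if_neg hij]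
          show (pderiv l' (φ (X i))).totalDegree ≤ _
          refine (JAC_pderiv l' _).trans ?_
          exact Nat.sub_le_sub_right (hle i hij) 1)
  rw [hdet] at hup
  have hsum : ∑ i, (if i = i₀ then Q.totalDegree - 1 else if i = j then 0 else M - 1) =
      (Q.totalDegree - 1) + (n - 2) * (M - 1) := by
    rw [← Finset.add_sum_erase _ _ (Finset.mem_univ i₀), if_pos rfl]
    congr 1
    have hj : j ∈ Finset.univ.erase i₀ := Finset.mem_erase.2 ⟨hi₀.symm, Finset.mem_univ _⟩
    rw [← Finset.add_sum_erase _ _ hj, if_neg hi₀.symm, if_pos rfl, zero_add]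
    have h1 : ∀ i ∈ (Finset.univ.erase i₀).erase j,
        (if i = i₀ then Q.totalDegree - 1 else if i = j then 0 else M - 1) = M - 1 := by
      intro i hi
      rw [Finset.mem_erase, Finset.mem_erase] at hi
      rw [if_neg hi.2.1, if_neg hi.1]
    rw [Finset.sum_congr rfl h1, Finset.sum_const, Finset.card_erase_of_mem hj,
      Finset.card_erase_of_mem (Finset.mem_univ _), Finset.card_univ, Fintype.card_fin,
      smul_eq_mul]
    congr 1
  rw [hsum] at hup
  obtain ⟨m, rfl⟩ : ∃ m, n = m + 2 := ⟨n - 2, by omega⟩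
  obtain ⟨e, rfl⟩ : ∃ e, d = m + 2 + e := ⟨d - (m + 2), by omega⟩
  have h5 : m + 2 + e - 1 = m + 1 + e := by omega
  have h6 : m + 2 - 2 = m := rfl
  have h7 : m + 2 + e - (m + 2) + 1 = e + 1 := by omega
  have h8 : m + 2 - 1 = m + 1 := rfl
  have h9 := hlow.trans hup
  rw [h5, h6] at h9
  rw [h7, h8]
  exact JAC_arith m e M _ hM1 h9

end Pool.Agent.Work.MP_b2cdcf_wpd
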