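import Pool.Agent.Work.MP_b2cdcf_wpd.Interface

/-!
# Block KAP: `κ ≥ 1` and the case of equality
-/

set_option autoImplicit false

open MvPolynomial

noncomputable section

namespace Pool.Agent.Work.MP_b2cdcf_wpd

theorem KAP_dom (hCP : Stmt_CP) {k : Type} [Field k] {n : ℕ} [NeZero n] {c d : ℕ} {G : AutP k n}
    {p q : Fin n} (h : Ctx c d G p q) (χ : AutP k n) (hχ : Dom c q χ) :
    cp d G χ = mdeg χ := by
  obtain ⟨-, h1⟩ := hCP k n c d G p q h χ (mdeg χ + 1) (Nat.lt_succ_self _)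
  have h2 := (grow h.h1 χ hχ (mdeg χ + 1)).2
  rw [h2] at h1
  push_cast at h1
  have hd : (d : ℚ) ≠ 0 := by
    have := h.d2
    positivity
  have hd2 : (d : ℚ) ^ (mdeg χ + 1) ≠ 0 := pow_ne_zero _ hd
  have h3 : (d : ℚ) ^ (mdeg χ + 1) * (mdeg χ : ℚ) = (d : ℚ) ^ (mdeg χ + 1) * cp d G χ := by
    rw [h1]
    ring
  exact (mul_left_cancel₀ hd2 h3).symm

theorem KAP_zpow (hCPF : Stmt_CPF) {k : Type} [Field k] {n : ℕ} [NeZero n] {c d : ℕ}
    {G : AutP k n} {p q : Fin n} (h : Ctx c d G p q) (χ : AutP k n) (m : ℤ) :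
    cp d G (χ * G ^ m) = cp d G χ * (d : ℚ) ^ m := by
  obtain ⟨-, -, -, -, -, h6, h7⟩ := hCPF k n c d G p q h
  have hd : (d : ℚ) ≠ 0 := by
    have := h.d2
    positivity
  induction m using Int.induction_on with
  | zero => simp
  | succ i ih =>
    rw [zpow_add_one, ← mul_assoc, h6, ih, zpow_add_one₀ hd]
    ring
  | pred i ih =>
    rw [zpow_sub_one, ← mul_assoc, h7, ih, zpow_sub_one₀ hd, div_eq_mul_inv, mul_assoc]

theorem p_KAP (_hVEE : Stmt_VEE) (hCP : Stmt_CP) (hCPF : Stmt_CPF) : Stmt_KAP := by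
  intro k _ n _ c d G p q h φ
  obtain ⟨b, hb1, hb2, hb3, -⟩ := _hVEE k n c d G p q h φ
  have hd2 := h.d2
  have hd : (d : ℚ) ≠ 0 := by positivity
  have hdpos : (0 : ℚ) < d := by positivity
  have h' := h.symm
  have hup : 0 < cp d G φ := (hCPF k n c d G p q h).1 φ
  have hvp : 0 < cp d G⁻¹ φ := (hCPF k n c d G⁻¹ q p h').1 φ
  set u := cp d G φ with hu
  set v := cp d G⁻¹ φ with hv
  set ψ := φ * G ^ b with hψ
  have e1 : ψ * G = φ * G ^ (b + 1) := by rw [zpow_add_one, ← mul_assoc]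
  have e2 : ψ * G⁻¹ = φ * G ^ (b - 1) := by rw [zpow_sub_one, ← mul_assoc]
  have hD1 : Dom c q (ψ * G) := by
    rw [e1]
    exact hb2 _ (by omega)
  have hD2 : Dom c p (ψ * G⁻¹) := by
    rw [e2]
    exact hb1 _ (by omega)
  have hP : (mdeg (ψ * G) : ℚ) = u * (d : ℚ) ^ (b + 1) := by
    rw [← KAP_dom hCP h _ hD1, e1, KAP_zpow hCPF h]
  have hN : (mdeg (ψ * G⁻¹) : ℚ) = v * (d : ℚ) ^ (1 - b) := by
    rw [← KAP_dom hCP h' _ hD2, e2]
    have e3 : φ * G ^ (b - 1) = φ * G⁻¹ ^ (1 - b) := by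
      rw [inv_zpow', neg_sub]
    rw [e3, KAP_zpow hCPF h']
  have hPN : (mdeg (ψ * G) : ℚ) * mdeg (ψ * G⁻¹) = u * v * ((d : ℚ) * d) := by
    rw [hP, hN]
    have : (d : ℚ) ^ (b + 1) * (d : ℚ) ^ (1 - b) = d * d := by
      rw [← zpow_add₀ hd]
      have : b + 1 + (1 - b) = 2 := by ring
      rw [this]
      norm_cast
      ring
    calc u * (d : ℚ) ^ (b + 1) * (v * (d : ℚ) ^ (1 - b))
        = u * v * ((d : ℚ) ^ (b + 1) * (d : ℚ) ^ (1 - b)) := by ring
      _ = _ := by rw [this]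
  have hPe : mdeg (ψ * G) = dg (ψ * G) q := hD1.mdeg_eq (by have := h.c2; omega)
  have hNe : mdeg (ψ * G⁻¹) = dg (ψ * G⁻¹) p := hD2.mdeg_eq (by have := h.c2; omega)
  have hcd := h.cd
  have hc2 := h.c2
  have main : 1 ≤ u * v ∧ (u * v = 1 → ∃ b : ℤ, (∀ i, dg (φ * G ^ b) i = 1) ∧
      u * (d : ℚ) ^ b = 1) := by
    by_cases hq : Dom c q ψ
    · have h1 : mdeg (ψ * G) = d * mdeg ψ := h.h1.mul _ hq
      have h2 : c ≤ mdeg ψ := hq.le_mdeg h.pq
      have h3 : c ≤ mdeg (ψ * G⁻¹) := hD2.le_mdeg h.pq.symm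
      have h4 : d * (c * c) ≤ mdeg (ψ * G) * mdeg (ψ * G⁻¹) := by
        rw [h1, mul_assoc]
        exact Nat.mul_le_mul_left _ (Nat.mul_le_mul h2 h3)
      have h5 : d * d < d * (c * c) := Nat.mul_lt_mul_of_pos_left h.dc (by omega)
      have h6 : ((d : ℚ) * d) < (mdeg (ψ * G) : ℚ) * mdeg (ψ * G⁻¹) := by
        exact_mod_cast lt_of_lt_of_le h5 h4
      rw [hPN] at h6
      have h7 : 1 < u * v := by
        by_contra hcon
        push Not at hcon
        have : u * v * ((d : ℚ) * d) ≤ 1 * (d * d) :=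
          mul_le_mul_of_nonneg_right hcon (by positivity)
        linarith
      exact ⟨h7.le, fun hh => absurd hh h7.ne'⟩
    · have hb := h.h1.big ψ hb3
      have hb' := h.h2.big ψ hq
      rw [← hPe] at hb
      rw [← hNe] at hb'
      have hone := one_le_dg ψ
      have hPd : d ≤ mdeg (ψ * G) := by
        have h1 := hb q h.pq.symm
        have h2 : c * 1 ≤ c * dg ψ q := Nat.mul_le_mul_left _ (hone q)
        omega
      have hNd : d ≤ mdeg (ψ * G⁻¹) := by
        have h1 := hb' p h.pq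
        have h2 : c * 1 ≤ c * dg ψ p := Nat.mul_le_mul_left _ (hone p)
        omega
      have h6 : ((d : ℚ) * d) ≤ (mdeg (ψ * G) : ℚ) * mdeg (ψ * G⁻¹) := by
        exact_mod_cast Nat.mul_le_mul hPd hNd
      rw [hPN] at h6
      refine ⟨?_, ?_⟩
      · by_contra hcon
        push Not at hcon
        have : u * v * ((d : ℚ) * d) < 1 * (d * d) :=
          mul_lt_mul_of_pos_right hcon (by positivity)
        linarith
      · intro huv
        rw [huv, one_mul] at hPN
        have h7 : mdeg (ψ * G) * mdeg (ψ * G⁻¹) = d * d := by exact_mod_cast hPN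
        have h8 : mdeg (ψ * G) = d := by
          by_contra hne
          have h9 : d < mdeg (ψ * G) := lt_of_le_of_ne hPd (Ne.symm hne)
          have h10 : d * d < mdeg (ψ * G) * mdeg (ψ * G⁻¹) := by
            calc d * d < mdeg (ψ * G) * d := Nat.mul_lt_mul_of_pos_right h9 (by omega)
              _ ≤ _ := Nat.mul_le_mul_left _ hNd
          omega
        have h9 : mdeg (ψ * G⁻¹) = d := by
          rw [h8] at h7
          exact Nat.eq_of_mul_eq_mul_left (by omega) h7
        refine ⟨b, ?_, ?_⟩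
        · intro i
          have h10 : c * dg ψ i ≤ c * 1 := by
            by_cases hi : i = p
            · have := hb' i (by rw [hi]; exact h.pq)
              omega
            · have := hb i hi
              omega
          have h11 : dg ψ i ≤ 1 := Nat.le_of_mul_le_mul_left h10 (by omega)
          have h12 := hone i
          rw [← hψ]
          omega
        · rw [h8, zpow_add_one₀ hd, ← mul_assoc] at hP
          have : u * (d : ℚ) ^ b * d = 1 * d := by rw [← hP, one_mul]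
          exact mul_right_cancel₀ hd this
  refine ⟨main.1, main.2, ?_⟩
  have hd1 : (1 : ℚ) ≤ d := by
    have : 1 ≤ d := by omega
    exact_mod_cast this
  have hle : ∀ x : ℚ, 0 < x → x ≤ max u v → x ≤ d * max u v := by
    intro x hx hm
    calc x = 1 * x := (one_mul x).symm
      _ ≤ d * max u v := mul_le_mul hd1 hm hx.le hdpos.le
  rcases lt_trichotomy b 0 with hb | hb | hb
  · have h1 : Dom c q φ := by
      have := hb2 0 hb
      rwa [zpow_zero, mul_one] at this
    rw [← KAP_dom hCP h φ h1]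
    exact hle _ hup (le_max_left _ _)
  · have h1 := h.h1.lt ψ hb3
    have h2 : ψ = φ := by rw [hψ, hb, zpow_zero, mul_one]
    rw [hb, zero_add, zpow_one] at hP
    have h3 : (mdeg φ : ℚ) < mdeg (ψ * G) := by
      rw [h2] at h1 ⊢
      exact_mod_cast h1
    rw [hP] at h3
    have h4 : u * d ≤ d * max u v := by
      rw [mul_comm]
      exact mul_le_mul_of_nonneg_left (le_max_left _ _) hdpos.le
    linarith
  · have h1 : Dom c p φ := by
      have := hb1 0 hb
      rwa [zpow_zero, mul_one] at this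
    rw [← KAP_dom hCP h' φ h1]
    exact hle _ hvp (le_max_right _ _)

end Pool.Agent.Work.MP_b2cdcf_wpd
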