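import Pool.Agent.Work.MP_b2cdcf_wpd.Interface

set_option autoImplicit false

open MvPolynomial

noncomputable section

namespace Pool.Agent.Work.MP_b2cdcf_wpd

theorem p_KEY (hCP : Stmt_CP) (_hCPF : Stmt_CPF) (hREG : Stmt_REG) (hMULT : Stmt_MULT) :
    Stmt_KEY := by
  intro k _ n _ c d G p q h ψ θ B hB hc
  set i := B + 1 with hi
  set π := ψ * (G ^ i * θ * (G ^ i)⁻¹) with hπ
  obtain ⟨m, hm⟩ : ∃ m : ℕ, m = mdeg θ + mdeg (G * θ * G⁻¹) + mdeg π + 1 := ⟨_, rfl⟩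
  have hc1 : 1 ≤ c := (by norm_num : 1 ≤ 2).trans h.c2
  obtain ⟨a1, a2⟩ := hCP k n c d G p q h θ m (by omega)
  obtain ⟨b1, b2⟩ := hCP k n c d G p q h (G * θ * G⁻¹) (m + 1) (by omega)
  obtain ⟨c1, c2⟩ := hCP k n c d G p q h ψ i (by omega)
  obtain ⟨e1, e2⟩ := hCP k n c d G p q h π (m + i) (by omega)
  rw [a1.mdeg_eq hc1] at a2
  rw [b1.mdeg_eq hc1] at b2
  rw [c1.mdeg_eq hc1] at c2
  rw [e1.mdeg_eq hc1] at e2
  have g1 : G * θ * G⁻¹ * G ^ (m + 1) = G * (θ * G ^ m) := by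
    rw [pow_succ']
    group
  have g2 : π * G ^ (m + i) = ψ * G ^ i * (θ * G ^ m) := by
    rw [hπ, add_comm m i, pow_add G i m]
    simp only [mul_assoc, inv_mul_cancel_left]
  rw [g1] at b2
  rw [g2] at e2
  have hQ1 : dg (θ * G ^ m) q = ((θ * G ^ m) (X q)).totalDegree := rfl
  have hQ2 : dg (G * (θ * G ^ m)) q = (G ((θ * G ^ m) (X q))).totalDegree := rfl
  have hQ3 : dg (ψ * G ^ i * (θ * G ^ m)) q = ((ψ * G ^ i) ((θ * G ^ m) (X q))).totalDegree := rfl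
  have hd : (G ((θ * G ^ m) (X q))).totalDegree = d * ((θ * G ^ m) (X q)).totalDegree := by
    have : ((dg (G * (θ * G ^ m)) q : ℕ) : ℚ) = ((d * dg (θ * G ^ m) q : ℕ) : ℚ) := by
      rw [b2, Nat.cast_mul, a2, hc]
      ring
    rw [← hQ2, ← hQ1]
    exact_mod_cast this
  have hne := hREG k n d G q h.d2 h.h1.dq h.h1.di _ (one_le_dg (θ * G ^ m) q) hd
  have hmul := hMULT k n (ψ * G ^ i) q (fun j hj => c1.lt h.c2 hj) _ hne
  rw [← hQ3, ← hQ1] at hmul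
  rw [hmul, Nat.cast_mul, a2, c2] at e2
  have hd0 : (d : ℚ) ≠ 0 := by
    have := h.d2
    positivity
  have hd1 : (d : ℚ) ^ (m + i) ≠ 0 := pow_ne_zero _ hd0
  apply mul_right_cancel₀ hd1
  rw [← e2, pow_add]
  ring

end Pool.Agent.Work.MP_b2cdcf_wpd
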