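import Pool.Agent.Work.MP_b2cdcf_wpd.Interface

set_option autoImplicit false

open MvPolynomial

noncomputable section

namespace Pool.Agent.Work.MP_b2cdcf_wpd

theorem MULT_sum {n : ℕ} (q : Fin n) (s : Fin n →₀ ℕ) (w : Fin n → ℕ) :
    (s.sum fun i e => e * w i) = s q * w q + ∑ i ∈ Finset.univ.erase q, s i * w i := by
  rw [Finsupp.sum_fintype _ _ (fun i => zero_mul _)]
  exact (Finset.add_sum_erase Finset.univ (fun i => s i * w i) (Finset.mem_univ q)).symm

theorem MULT_deg {n : ℕ} (q : Fin n) (s : Fin n →₀ ℕ) :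
    (s.sum fun _ e => e) = s q + ∑ i ∈ Finset.univ.erase q, s i := by
  rw [Finsupp.sum_fintype _ _ (fun i => rfl)]
  exact (Finset.add_sum_erase Finset.univ (fun i => s i) (Finset.mem_univ q)).symm

theorem MULT_single {n : ℕ} (q : Fin n) (s : Fin n →₀ ℕ) (D : ℕ) (h1 : s q = D)
    (h2 : ∑ i ∈ Finset.univ.erase q, s i = 0) : s = Finsupp.single q D := by
  ext i
  by_cases hi : i = q
  · subst hi
    rw [Finsupp.single_eq_same, h1]
  · rw [Finsupp.single_eq_of_ne hi]
    exact (Finset.sum_eq_zero_iff.1 h2) i (Finset.mem_erase.2 ⟨hi, Finset.mem_univ _⟩)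

theorem MULT_lt {n : ℕ} (q : Fin n) (s : Fin n →₀ ℕ) (w : Fin n → ℕ) (D : ℕ)
    (hw : ∀ i, i ≠ q → w i < w q) (hq : 1 ≤ w q) (hs : (s.sum fun _ e => e) ≤ D)
    (hne : s ≠ Finsupp.single q D) : (s.sum fun i e => e * w i) < D * w q := by
  rw [MULT_sum q]
  rw [MULT_deg q] at hs
  have e1 : ∑ i ∈ Finset.univ.erase q, s i * w i ≤
      (∑ i ∈ Finset.univ.erase q, s i) * (w q - 1) := by
    rw [Finset.sum_mul]
    apply Finset.sum_le_sum
    intro i h
    have := hw i (Finset.ne_of_mem_erase h)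
    exact Nat.mul_le_mul_left _ (by omega)
  obtain ⟨v, hv⟩ : ∃ v, w q = v + 1 := ⟨w q - 1, by omega⟩
  rw [hv, Nat.add_sub_cancel] at e1
  rw [hv]
  by_cases ht : ∑ i ∈ Finset.univ.erase q, s i = 0
  · have h1 : s q ≠ D := fun h => hne (MULT_single q s D h ht)
    rw [ht] at e1 hs
    have h2 : s q + 1 ≤ D := by omega
    nlinarith
  · set t := ∑ i ∈ Finset.univ.erase q, s i
    have h1 : 1 ≤ t := Nat.pos_of_ne_zero ht
    nlinarith

theorem MULT_pow {k : Type} [Field k] {n : ℕ} (a : MvPolynomial (Fin n) k) (ha : a ≠ 0) (m : ℕ) :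
    (a ^ m).totalDegree = m * a.totalDegree := by
  induction m with
  | zero => simp
  | succ m ih =>
    rw [pow_succ, totalDegree_mul_of_isDomain (pow_ne_zero _ ha) ha, ih]
    ring

theorem p_MULT : Stmt_MULT := by
  intro k _ n _ ψ q hw Q h0
  by_cases hD : Q.totalDegree = 0
  · rw [hD, zero_mul]
    have h1 := totalDegree_eq_zero_iff_eq_C.1 hD
    have h2 : ψ Q = C (coeff 0 Q) := by
      conv_lhs => rw [h1]
      exact ψ.commutes _
    rw [h2, totalDegree_C]
  set D := Q.totalDegree with hDdef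
  have hw1 : 1 ≤ dg ψ q := one_le_dg ψ q
  have hpos : 0 < D * dg ψ q := Nat.mul_pos (Nat.pos_of_ne_zero hD) hw1
  have hmem : Finsupp.single q D ∈ Q.support := mem_support_iff.2 h0
  have hX : ψ (X q) ≠ 0 := by
    intro h
    have : dg ψ q = 0 := by unfold dg; rw [h, totalDegree_zero]
    omega
  rw [aut_eq_sum ψ Q, ← Finset.add_sum_erase _ _ hmem]
  have hmain : (C (coeff (Finsupp.single q D) Q) *
      ((Finsupp.single q D).prod fun i e => ψ (X i) ^ e)).totalDegree = D * dg ψ q := by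
    rw [Finsupp.prod_single_index (by rw [pow_zero])]
    rw [totalDegree_mul_of_isDomain (by simpa using h0) (pow_ne_zero _ hX), totalDegree_C, zero_add]
    unfold dg
    exact MULT_pow _ hX _
  have hrest : (∑ s ∈ Q.support.erase (Finsupp.single q D),
      C (coeff s Q) * (s.prod fun i e => ψ (X i) ^ e)).totalDegree < D * dg ψ q := by
    refine lt_of_le_of_lt (totalDegree_finsetSum _ _) ?_
    rw [Finset.sup_lt_iff (by simpa using hpos)]
    intro s hs
    refine lt_of_le_of_lt (totalDegree_mul _ _) ?_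
    rw [totalDegree_C, zero_add]
    refine lt_of_le_of_lt (totalDegree_prod_le ψ s) ?_
    exact MULT_lt q s _ D hw hw1 (le_totalDegree (Finset.mem_of_mem_erase hs))
      (Finset.ne_of_mem_erase hs)
  rw [totalDegree_add_eq_left_of_totalDegree_lt (by rw [hmain]; exact hrest), hmain]

end Pool.Agent.Work.MP_b2cdcf_wpd
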