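import Pool.Agent.Work.MP_b2cdcf_wpd.Interface

set_option autoImplicit false

namespace Pool.Agent.Work.MP_b2cdcf_wpd

theorem PIG_mono (w : ℕ → ℕ) (M : ℕ) (hm : ∀ j, j < M → w j ≤ w (j + 1)) :
    ∀ a b : ℕ, a ≤ b → b ≤ M → w a ≤ w b := by
  intro a b hab
  induction b, hab using Nat.le_induction with
  | base => exact fun _ => le_rfl
  | succ b hab ih => exact fun hb => (ih (by omega)).trans (hm b (by omega))

theorem p_PIG : Stmt_PIG := by
  intro w W l M hm hW hM
  by_contra hcon
  push Not at hcon
  have key : ∀ t : ℕ, t ≤ W + 1 → t ≤ w (t * l) := by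
    intro t
    induction t with
    | zero => intro _; exact Nat.zero_le _
    | succ t ih =>
      intro ht
      have h1 := ih (by omega)
      have h2 : (t + 1) * l ≤ (W + 1) * l := Nat.mul_le_mul_right _ ht
      have h3 : (t + 1) * l = t * l + l := by ring
      have h4 : t * l + l ≤ M := by omega
      have h5 := hcon (t * l) h4
      have h6 := PIG_mono w M hm (t * l) (t * l + l) (by omega) h4
      rw [h3]
      omega
  have h1 := key (W + 1) le_rfl
  have h2 := PIG_mono w M hm ((W + 1) * l) M hM le_rfl
  omega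

end Pool.Agent.Work.MP_b2cdcf_wpd
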