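import Pool.Agent.Work.MP_b2cdcf_wpd.Interface

/-! # Block R2: the relation at `X 1` for diagonal affine automorphisms (helper47) -/

set_option autoImplicit false

open MvPolynomial

noncomputable section

namespace Pool.Agent.Work.MP_b2cdcf_wpd

variable {k : Type} [Field k] {n : ℕ}

/-- evaluation on the `l`-th axis -/
def R2_ev (l : Fin n) : MvPolynomial (Fin n) k →ₐ[k] Polynomial k :=
  aeval fun j => if j = l then Polynomial.X else 0

theorem R2_X (l j : Fin n) :
    R2_ev l (X j : MvPolynomial (Fin n) k) = if j = l then Polynomial.X else 0 := aeval_X _ _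

theorem R2_C (l : Fin n) (a : k) : R2_ev l (C a) = Polynomial.C a := by
  rw [R2_ev, aeval_C]
  rfl

theorem R2_coeff (a b : k) (d m : ℕ) :
    ((Polynomial.C a * Polynomial.X + Polynomial.C b) ^ d).coeff m =
      a ^ m * b ^ (d - m) * (d.choose m) := by
  rw [add_pow, Polynomial.finset_sum_coeff]
  have h1 : ∀ i, ((Polynomial.C a * Polynomial.X) ^ i * Polynomial.C b ^ (d - i) *
      ((d.choose i : ℕ) : Polynomial k)).coeff m =
      if i = m then a ^ m * b ^ (d - m) * (d.choose m) else 0 := by
    intro i
    have h2 : (Polynomial.C a * Polynomial.X) ^ i * Polynomial.C b ^ (d - i) *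
      ((d.choose i : ℕ) : Polynomial k) =
        Polynomial.C (a ^ i * b ^ (d - i) * (d.choose i)) * Polynomial.X ^ i := by
      rw [mul_pow, Polynomial.C_mul, Polynomial.C_mul, Polynomial.C_pow, Polynomial.C_pow,
        Polynomial.C_eq_natCast]
      ring
    rw [h2, Polynomial.coeff_C_mul, Polynomial.coeff_X_pow]
    by_cases h : i = m
    · subst h
      rw [if_pos rfl, if_pos rfl, mul_one]
    · rw [if_neg (fun h' => h h'.symm), if_neg h, mul_zero]
  rw [Finset.sum_congr rfl fun i _ => h1 i, Finset.sum_ite_eq' (Finset.range (d + 1)) m]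
  by_cases hm : m ≤ d
  · rw [if_pos (Finset.mem_range.2 (by omega))]
  · rw [if_neg (by rw [Finset.mem_range]; omega), Nat.choose_eq_zero_of_lt (by omega),
      Nat.cast_zero, mul_zero]

theorem p_R2 : Stmt_R2 := by
  intro k _ n _ d hn hd hdk α α' b t b' t' hα hα' hrel
  have h01 : (0 : Fin n) ≠ 1 := by
    intro h
    have := congrArg Fin.val h
    rw [Fin.val_zero, Fin.val_one'] at this
    rw [Nat.mod_eq_of_lt (by omega)] at this
    omega
  have hC : ∀ (G : AutP k n) (a : k), G (C a) = C a := fun G a => G.commutes a
  have hrel1 := AlgEquiv.congr_fun hrel (X 1)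
  rw [aut_mul_apply, aut_mul_apply, hα, FF_one, map_add, map_mul, hC, hC, FF_one, map_add,
    map_sum, hα' 0] at hrel1
  have hsum : ∑ x ∈ Finset.univ.erase (0 : Fin n), α' (X x ^ d) =
      ∑ x ∈ Finset.univ.erase (0 : Fin n), (C (b' x) * X x + C (t' x)) ^ d :=
    Finset.sum_congr rfl fun x _ => by rw [map_pow, hα' x]
  rw [hsum] at hrel1
  have hb' : ∀ l, b' l ≠ 0 := by
    intro l h0
    have h1 : α' (X l) = α' (C (t' l)) := by rw [hα', h0, hC, C_0, zero_mul, zero_add]
    have h2 := congrArg totalDegree (α'.injective h1)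
    rw [totalDegree_X, totalDegree_C] at h2
    exact one_ne_zero h2
  constructor
  · -- coefficient of `X` on the axis `0`
    have h1 := congrArg (R2_ev (0 : Fin n)) hrel1
    simp only [map_add, map_mul, map_sum, map_pow, R2_C, R2_X] at h1
    have e1 : ∑ x ∈ Finset.univ.erase (0 : Fin n),
        (if x = 0 then (Polynomial.X : Polynomial k) else 0) ^ d = 0 := by
      apply Finset.sum_eq_zero
      intro x hx
      rw [if_neg (Finset.ne_of_mem_erase hx), zero_pow (by omega)]
    have e2 : ∑ x ∈ Finset.univ.erase (0 : Fin n),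
        (Polynomial.C (b' x) * (if x = 0 then (Polynomial.X : Polynomial k) else 0) +
          Polynomial.C (t' x)) ^ d =
        Polynomial.C (∑ x ∈ Finset.univ.erase (0 : Fin n), t' x ^ d) := by
      rw [map_sum]
      apply Finset.sum_congr rfl
      intro x hx
      rw [if_neg (Finset.ne_of_mem_erase hx), mul_zero, zero_add, Polynomial.C_pow]
    rw [e1, e2, if_pos trivial, add_zero] at h1
    have h2 := congrArg (fun p => Polynomial.coeff p 1) h1
    simp only [Polynomial.coeff_add, Polynomial.coeff_C_mul, Polynomial.coeff_X_one,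
      Polynomial.coeff_C_succ, mul_one, add_zero] at h2
    exact h2.symm
  · intro l hl
    have h1 := congrArg (R2_ev l) hrel1
    simp only [map_add, map_mul, map_sum, map_pow, R2_C, R2_X] at h1
    have e1 : ∑ x ∈ Finset.univ.erase (0 : Fin n),
        (if x = l then (Polynomial.X : Polynomial k) else 0) ^ d = Polynomial.X ^ d := by
      rw [Finset.sum_eq_single l]
      · rw [if_pos rfl]
      · intro x _ hx
        rw [if_neg hx, zero_pow (by omega)]
      · intro h
        exact absurd (Finset.mem_erase.2 ⟨hl, Finset.mem_univ _⟩) h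
    have e2 : ∑ x ∈ Finset.univ.erase (0 : Fin n),
        (Polynomial.C (b' x) * (if x = l then (Polynomial.X : Polynomial k) else 0) +
          Polynomial.C (t' x)) ^ d =
        (Polynomial.C (b' l) * Polynomial.X + Polynomial.C (t' l)) ^ d +
        Polynomial.C (∑ x ∈ (Finset.univ.erase (0 : Fin n)).erase l, t' x ^ d) := by
      rw [← Finset.add_sum_erase _ _ (Finset.mem_erase.2 ⟨hl, Finset.mem_univ l⟩), if_pos rfl,
        map_sum]
      congr 1
      apply Finset.sum_congr rfl
      intro x hx
      rw [if_neg (Finset.ne_of_mem_erase hx), mul_zero, zero_add, Polynomial.C_pow]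
    rw [e1, e2, if_neg (fun h => hl h.symm), zero_add, mul_zero, zero_add] at h1
    constructor
    · -- coefficient of `X ^ (d - 1)`
      have h2 := congrArg (fun p => Polynomial.coeff p (d - 1)) h1
      simp only [Polynomial.coeff_add, Polynomial.coeff_C_mul, Polynomial.coeff_X_pow,
        R2_coeff, Polynomial.coeff_C] at h2
      rw [if_neg (by omega), if_neg (by omega), if_neg (by omega), if_neg (by omega),
        show d - (d - 1) = 1 by omega, pow_one,
        show d.choose (d - 1) = d by
          rw [Nat.choose_symm (by omega : 1 ≤ d)]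
          exact Nat.choose_one_right d] at h2
      have h3 : b' l ^ (d - 1) * t' l * (d : k) = 0 := by
        simpa using h2.symm
      rcases mul_eq_zero.1 h3 with h4 | h4
      · rcases mul_eq_zero.1 h4 with h5 | h5
        · exact absurd h5 (pow_ne_zero _ (hb' l))
        · exact h5
      · exact absurd h4 hdk
    · have h2 := congrArg (fun p => Polynomial.coeff p d) h1
      simp only [Polynomial.coeff_add, Polynomial.coeff_C_mul, Polynomial.coeff_X_pow,
        R2_coeff, Polynomial.coeff_C] at h2
      rw [if_pos trivial, if_neg (by omega), if_neg (by omega), if_neg (by omega),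
        Nat.sub_self, pow_zero, Nat.choose_self, Nat.cast_one] at h2
      simpa using h2.symm

end Pool.Agent.Work.MP_b2cdcf_wpd
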