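import Pool.Agent.Work.MP_b2cdcf_wpd.Interface

set_option autoImplicit false

/-! Block R3: shifts. -/

namespace Pool.Agent.Work.MP_b2cdcf_wpd

open Fin.NatCast Fin.CommRing

theorem R3_down {k : Type} [Field k] {n : ℕ} [NeZero n] {N : ℕ} (B : ℕ → Fin n → Fin n → k)
    (h3 : ∀ j, j < N → ∀ i l, i ≠ 1 → B (j + 1) (i - 1) (l - 1) = B j i l) (j : ℕ) (i l : Fin n) :
    ∀ s : ℕ, (∀ r : ℕ, r < s → i - (r : Fin n) ≠ 1) → j + s ≤ N →
      B (j + s) (i - (s : Fin n)) (l - (s : Fin n)) = B j i l := by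
  intro s
  induction s with
  | zero =>
    intro _ _
    simp
  | succ s ih =>
    intro hr hN
    have h1 := ih (fun r hr' => hr r (by omega)) (by omega)
    have h2 := h3 (j + s) (by omega) (i - (s : Fin n)) (l - (s : Fin n)) (hr s (by omega))
    rw [← h1, ← h2]
    have e : ∀ x : Fin n, x - ((s + 1 : ℕ) : Fin n) = x - (s : Fin n) - 1 := by
      intro x
      push_cast
      rw [sub_sub]
    rw [e, e]
    rfl

theorem R3_up {k : Type} [Field k] {n : ℕ} [NeZero n] {N : ℕ} (B : ℕ → Fin n → Fin n → k)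
    (h3 : ∀ j, j < N → ∀ i l, i ≠ 1 → B (j + 1) (i - 1) (l - 1) = B j i l) (i l : Fin n) :
    ∀ (s j : ℕ), (∀ r : ℕ, r < s → i + (r : Fin n) ≠ 0) → s ≤ j → j ≤ N →
      B j i l = B (j - s) (i + (s : Fin n)) (l + (s : Fin n)) := by
  intro s
  induction s with
  | zero =>
    intro j _ _ _
    simp
  | succ s ih =>
    intro j hr hs hN
    have h1 := ih j (fun r hr' => hr r (by omega)) (by omega) hN
    have h2 := h3 (j - (s + 1)) (by omega) (i + ((s + 1 : ℕ) : Fin n)) (l + ((s + 1 : ℕ) : Fin n)) (by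
      intro h
      apply hr s (by omega)
      have : i + (s : Fin n) = i + ((s + 1 : ℕ) : Fin n) - 1 := by
        push_cast
        rw [← add_assoc, add_sub_cancel_right]
      rw [this, h, sub_self])
    rw [h1, ← h2]
    have e : ∀ x : Fin n, x + ((s + 1 : ℕ) : Fin n) - 1 = x + (s : Fin n) := by
      intro x
      push_cast
      rw [← add_assoc, add_sub_cancel_right]
    rw [e, e]
    congr 1
    omega

theorem p_R3 : Stmt_R3 := by
  intro k _ n _ N B h1 h2 h3 j hj hN i l hil
  have hn : 0 < n := Nat.pos_of_ne_zero (NeZero.ne n)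
  have key : ∀ z : Fin n, ∃ x : ℕ, x < n ∧ z = (x : Fin n) + 1 := by
    intro z
    refine ⟨(z - 1).val, (z - 1).isLt, ?_⟩
    rw [Fin.cast_val_eq_self, sub_add_cancel]
  obtain ⟨x, hx, rfl⟩ := key i
  obtain ⟨y, hy, rfl⟩ := key l
  have hxy : x ≠ y := by
    rintro rfl
    exact hil rfl
  have hne : ∀ m : ℕ, 0 < m → m < n → (m : Fin n) ≠ 0 := by
    intro m h0 h1 h
    rw [Fin.natCast_eq_zero] at h
    exact absurd (Nat.le_of_dvd h0 h) (by omega)
  rcases lt_or_gt_of_ne hxy with h | h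
  · -- up
    have hz : ∀ r : ℕ, r ≤ n - 1 - y → (x : Fin n) + 1 + (r : Fin n) ≠ 0 := by
      intro r hr
      have e : (x : Fin n) + 1 + (r : Fin n) = ((x + 1 + r : ℕ) : Fin n) := by push_cast; rfl
      rw [e]
      exact hne _ (by omega) (by omega)
    have hu := R3_up B h3 ((x : Fin n) + 1) ((y : Fin n) + 1) (n - 1 - y) j
      (fun r hr => hz r (by omega)) (by omega) (by omega)
    rw [hu]
    have e2 : (y : Fin n) + 1 + ((n - 1 - y : ℕ) : Fin n) = 0 := by
      have e : (y : Fin n) + 1 + ((n - 1 - y : ℕ) : Fin n) = ((y + 1 + (n - 1 - y) : ℕ) : Fin n) := by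
        push_cast; rfl
      rw [e]
      have : y + 1 + (n - 1 - y) = n := by omega
      rw [this, Fin.natCast_self]
    rw [e2]
    have e3 : j - (n - 1 - y) = (j - (n - 1 - y) - 1) + 1 := by omega
    rw [e3]
    exact h2 _ (by omega) _ (hz _ le_rfl)
  · -- down
    have hz : ∀ r : ℕ, r ≤ y → (x : Fin n) + 1 - (r : Fin n) ≠ 1 := by
      intro r hr he
      have e : ((x - r : ℕ) : Fin n) = 0 := by
        have e1 : ((x - r : ℕ) : Fin n) + (r : Fin n) = (x : Fin n) := by
          rw [← Nat.cast_add]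
          congr 1
          omega
        have e2 : (x : Fin n) + 1 - (r : Fin n) = ((x - r : ℕ) : Fin n) + 1 := by
          rw [← e1]
          abel
        rw [e2] at he
        exact add_eq_right.1 he
      exact hne _ (by omega) (by omega) e
    have hd := R3_down B h3 j ((x : Fin n) + 1) ((y : Fin n) + 1) y
      (fun r hr => hz r (by omega)) (by omega)
    rw [← hd]
    have e2 : (y : Fin n) + 1 - (y : Fin n) = 1 := by abel
    rw [e2]
    exact h1 _ (by omega) _ (hz _ le_rfl)

end Pool.Agent.Work.MP_b2cdcf_wpd
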