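import Pool.Agent.Work.MP_b2cdcf_wpd.Interface

set_option autoImplicit false

open MvPolynomial

noncomputable section

namespace Pool.Agent.Work.MP_b2cdcf_wpd

theorem REG_sum {n : ℕ} (q : Fin n) (s : Fin n →₀ ℕ) (w : Fin n → ℕ) :
    (s.sum fun i e => e * w i) = s q * w q + ∑ i ∈ Finset.univ.erase q, s i * w i := by
  rw [Finsupp.sum_fintype _ _ (fun i => zero_mul _)]
  exact (Finset.add_sum_erase Finset.univ (fun i => s i * w i) (Finset.mem_univ q)).symm

theorem REG_deg {n : ℕ} (q : Fin n) (s : Fin n →₀ ℕ) :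
    (s.sum fun _ e => e) = s q + ∑ i ∈ Finset.univ.erase q, s i := by
  rw [Finsupp.sum_fintype _ _ (fun i => rfl)]
  exact (Finset.add_sum_erase Finset.univ (fun i => s i) (Finset.mem_univ q)).symm

theorem REG_single {n : ℕ} (q : Fin n) (s : Fin n →₀ ℕ) (D : ℕ) (h1 : s q = D)
    (h2 : ∑ i ∈ Finset.univ.erase q, s i = 0) : s = Finsupp.single q D := by
  ext i
  by_cases hi : i = q
  · subst hi
    rw [Finsupp.single_eq_same, h1]
  · rw [Finsupp.single_eq_of_ne hi]
    exact (Finset.sum_eq_zero_iff.1 h2) i (Finset.mem_erase.2 ⟨hi, Finset.mem_univ _⟩)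

theorem p_REG : Stmt_REG := by
  intro k _ n _ d G q hd hq hi Q hD hdeg h0
  have key : (G Q).totalDegree ≤ d * Q.totalDegree - 1 := by
    rw [aut_eq_sum G Q]
    refine (totalDegree_finsetSum _ _).trans (Finset.sup_le fun s hs => ?_)
    refine (totalDegree_mul _ _).trans ?_
    rw [totalDegree_C, zero_add]
    refine (totalDegree_prod_le G s).trans ?_
    rw [REG_sum q, hq]
    have e1 : ∑ i ∈ Finset.univ.erase q, s i * dg G i = ∑ i ∈ Finset.univ.erase q, s i := by
      apply Finset.sum_congr rfl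
      intro i h
      rw [hi i (Finset.ne_of_mem_erase h), mul_one]
    rw [e1]
    have e2 := le_totalDegree hs
    rw [REG_deg q] at e2
    have e3 : s q ≠ Q.totalDegree := by
      intro h
      have h1 := REG_single q s _ h (by omega)
      rw [← h1] at h0
      exact (mem_support_iff.1 hs) h0
    set t := ∑ i ∈ Finset.univ.erase q, s i
    set D := Q.totalDegree
    have e4 : s q + 1 ≤ D := by omega
    obtain ⟨u, hu⟩ : ∃ u, D = s q + 1 + u := ⟨D - (s q + 1), by omega⟩
    have e5 : t ≤ 1 + u := by omega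
    have e6 : s q * d + t + 1 ≤ d * D := by
      rw [hu]
      nlinarith
    omega
  rw [hdeg] at key
  have : 1 ≤ d * Q.totalDegree := Nat.mul_pos (by omega) hD
  omega

end Pool.Agent.Work.MP_b2cdcf_wpd
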