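import Pool.Agent.Work.MP_b2cdcf_wpd.Interface

/-! # Block RIG: rigidity of long orbits of affine automorphisms (helper47) -/

set_option autoImplicit false

open MvPolynomial

noncomputable section

namespace Pool.Agent.Work.MP_b2cdcf_wpd

theorem RIG_val {n : ℕ} [NeZero n] (r : ℕ) : (r • (1 : Fin n)).val = r % n := by
  induction r with
  | zero => rw [zero_nsmul, Fin.val_zero, Nat.zero_mod]
  | succ r ih =>
    rw [succ_nsmul, Fin.val_add, ih, Fin.val_one', ← Nat.add_mod]

theorem RIG_self {n : ℕ} [NeZero n] (s : Fin n) : s.val • (1 : Fin n) = s := by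
  apply Fin.ext
  rw [RIG_val, Nat.mod_eq_of_lt s.isLt]

theorem p_RIG (hAFF : Stmt_AFF) (hR1 : Stmt_R1) (hR2 : Stmt_R2) (hR3 : Stmt_R3) : Stmt_RIG := by
  intro k _ n _ d hn hd hdk α hα hrel
  have h01 : (0 : Fin n) ≠ 1 := by
    intro h
    have := congrArg Fin.val h
    rw [Fin.val_zero, Fin.val_one'] at this
    rw [Nat.mod_eq_of_lt (by omega)] at this
    omega
  have h1 : ∀ j, j < 4 * n → _ := fun j hj =>
    hR1 k n d (by omega) (by omega) (α j) (α (j + 1)) (hα j hj.le) (hα (j + 1) hj) (hrel j hj)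
  have hdiag : ∀ j, n ≤ j → j + n ≤ 4 * n → ∀ i l, i ≠ l → bc (α j) i l = 0 :=
    hR3 k n (4 * n) (fun j => bc (α j)) (fun j hj => (h1 j hj).1) (fun j hj => (h1 j hj).2.1)
      (fun j hj => (h1 j hj).2.2.1)
  have happ : ∀ j, n ≤ j → j ≤ 3 * n → ∀ i,
      α j (X i) = C (bc (α j) i i) * X i + C (tc (α j) i) := by
    intro j hj1 hj2 i
    rw [hAFF k n (α j) i (hα j (by omega) i), add_comm, Finset.sum_eq_single i]
    · intro l _ hl
      rw [hdiag j hj1 (by omega) i l hl.symm, C_0, zero_mul]
    · intro h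
      exact absurd (Finset.mem_univ _) h
  have h2 : ∀ j, n ≤ j → j < 3 * n → _ := fun j hj1 hj2 =>
    hR2 k n d (by omega) hd hdk (α j) (α (j + 1)) (fun i => bc (α j) i i) (tc (α j))
      (fun i => bc (α (j + 1)) i i) (tc (α (j + 1))) (happ j hj1 hj2.le)
      (happ (j + 1) (by omega) hj2) (hrel j (by omega))
  have hsh : ∀ j, n ≤ j → j < 3 * n → ∀ i,
      bc (α (j + 1)) (i - 1) (i - 1) = bc (α j) i i := by
    intro j hj1 hj2 i
    by_cases hi : i = 1
    · subst hi
      rw [sub_self]
      exact (h2 j hj1 hj2).1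
    · exact (h1 j (by omega)).2.2.1 i i hi
  have hshr : ∀ r, r ≤ n → ∀ i,
      bc (α (2 * n + r)) (i - r • (1 : Fin n)) (i - r • (1 : Fin n)) = bc (α (2 * n)) i i := by
    intro r
    induction r with
    | zero =>
      intro _ i
      rw [zero_nsmul, sub_zero, add_zero]
    | succ r ih =>
      intro hr i
      have e : i - (r + 1) • (1 : Fin n) = (i - r • (1 : Fin n)) - 1 := by
        rw [succ_nsmul, sub_sub]
      rw [e, ← add_assoc, hsh (2 * n + r) (by omega) (by omega), ih (by omega)]
  have hpow : ∀ j, n ≤ j → j < 3 * n → ∀ l, l ≠ 0 →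
      bc (α (j + 1)) l l ^ d = bc (α (j + 1)) 0 0 := by
    intro j hj1 hj2 l hl
    have h3 := ((h2 j hj1 hj2).2 l hl).2
    have h4 := (h2 j hj1 hj2).1
    exact h3.trans h4.symm
  have hkey : ∀ i s, i ≠ s → bc (α (2 * n)) i i ^ d = bc (α (2 * n)) s s := by
    intro i s his
    have hs := hshr s.val s.isLt.le s
    have hi := hshr s.val s.isLt.le i
    rw [RIG_self] at hs hi
    rw [sub_self] at hs
    rw [← hs, ← hi]
    have h3 := hpow (2 * n + s.val - 1) (by omega) (by have := s.isLt; omega) (i - s)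
      (sub_ne_zero.2 his)
    rw [show 2 * n + s.val - 1 + 1 = 2 * n + s.val by omega] at h3
    exact h3
  have hall : ∀ s, bc (α (2 * n)) s s = bc (α (2 * n)) 0 0 := by
    intro s
    by_cases hs : s = 0
    · rw [hs]
    · obtain ⟨i, hi0, his⟩ : ∃ i : Fin n, i ≠ 0 ∧ i ≠ s := by
        by_contra hcon
        push Not at hcon
        have hcard : (Finset.univ : Finset (Fin n)) ⊆ {0, s} := by
          intro i _
          rw [Finset.mem_insert, Finset.mem_singleton]
          by_cases hi : i = 0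
          · exact Or.inl hi
          · exact Or.inr (hcon i hi)
        have h3 := Finset.card_le_card hcard
        have h4 : ({0, s} : Finset (Fin n)).card ≤ 2 := Finset.card_le_two
        rw [Finset.card_univ, Fintype.card_fin] at h3
        omega
      rw [← hkey i s his, hkey i 0 hi0]
  have ht : ∀ i, tc (α (2 * n)) i = 0 := by
    intro i
    by_cases hi : i = 0
    · subst hi
      have h3 := (h1 (2 * n) (by omega)).2.2.2 0 h01
      have h4 := ((h2 (2 * n) (by omega) (by omega)).2 (0 - 1) (sub_ne_zero.2 h01)).1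
      exact h3.symm.trans h4
    · have h4 := ((h2 (2 * n - 1) (by omega) (by omega)).2 i hi).1
      rw [show 2 * n - 1 + 1 = 2 * n by omega] at h4
      exact h4
  set β := bc (α (2 * n)) 0 0 with hβ
  have happ2 : ∀ i, α (2 * n) (X i) = C β * X i := by
    intro i
    rw [happ (2 * n) (by omega) (by omega) i, hall i, ht i, C_0, add_zero]
  have hβ0 : β ≠ 0 := by
    intro h0
    have h3 := happ2 0
    rw [h0, C_0, zero_mul] at h3
    have h4 : (X 0 : MvPolynomial (Fin n) k) = 0 := by
      apply (α (2 * n)).injective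
      rw [h3, map_zero]
    exact X_ne_zero _ h4
  refine ⟨β, ?_, happ2⟩
  have h3 : β ^ d = β := by
    have h4 := hkey 1 0 h01.symm
    rw [hall 1] at h4
    exact h4
  have h5 : β ^ (d - 1) * β = 1 * β := by
    rw [← pow_succ, show d - 1 + 1 = d by omega, h3, one_mul]
  exact mul_right_cancel₀ hβ0 h5

end Pool.Agent.Work.MP_b2cdcf_wpd
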