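import Pool.Agent.Work.MP_b2cdcf_wpd.Interface

set_option autoImplicit false

open MvPolynomial

noncomputable section

namespace Pool.Agent.Work.MP_b2cdcf_wpd

variable {k : Type} [Field k] {n : ℕ}

/-- `mdeg φ < d ^ m` for `m ≥ mdeg φ` -/
theorem VEE_pow {d : ℕ} (hd : 2 ≤ d) {a m : ℕ} (h : a ≤ m) : a < d ^ m :=
  (h.trans_lt Nat.lt_two_pow_self).trans_le (Nat.pow_le_pow_left hd m)

theorem VEE_big [NeZero n] {c d : ℕ} (hd : 2 ≤ d) {G : AutP k n} {p q : Fin n} (h : Half c d G p q)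
    (ψ : AutP k n) (hψ : Dom c q ψ) (m : ℕ) (hm : mdeg (ψ * G ^ m) ≤ m) : False := by
  have h1 := (grow h ψ hψ m).2
  have h2 := VEE_pow hd hm
  have h3 := one_le_mdeg ψ
  rw [h1] at h2
  have h4 : d ^ m * 1 ≤ d ^ m * mdeg ψ := Nat.mul_le_mul_left _ h3
  omega

theorem p_VEE : Stmt_VEE := by
  intro k _ n _ c d G p q hC φ
  have hd := hC.d2
  have hnot : ∀ m : ℤ, ¬ Dom c p (φ * G ^ m) → ∀ t : ℕ, Dom c q (φ * G ^ (m + 1) * G ^ t) := by
    intro m hm t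
    have h1 := hC.h1.dom _ hm
    have h2 : φ * G ^ m * G = φ * G ^ (m + 1) := by rw [zpow_add_one, mul_assoc]
    rw [h2] at h1
    exact (grow hC.h1 _ h1 t).1
  have hup : ∀ m m' : ℤ, ¬ Dom c p (φ * G ^ m) → m < m' → Dom c q (φ * G ^ m') := by
    intro m m' hm hmm
    obtain ⟨t, ht⟩ := Int.eq_ofNat_of_zero_le (show 0 ≤ m' - (m + 1) by omega)
    have h1 := hnot m hm t
    have h2 : φ * G ^ (m + 1) * G ^ t = φ * G ^ m' := by
      rw [mul_assoc, ← zpow_natCast, ← zpow_add]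
      congr 2
      omega
    rwa [h2] at h1
  have hlow : ∀ m : ℤ, ¬ Dom c p (φ * G ^ m) → -(mdeg φ : ℤ) ≤ m := by
    intro m hm
    by_contra hcon
    push Not at hcon
    obtain ⟨t, ht⟩ := Int.eq_ofNat_of_zero_le (show 0 ≤ -(m + 1) by omega)
    have h1 := hup m (m + 1) hm (by omega)
    apply VEE_big hd hC.h1 _ h1 t
    have h2 : φ * G ^ (m + 1) * G ^ t = φ := by
      rw [mul_assoc, ← zpow_natCast, ← zpow_add]
      have : m + 1 + (t : ℤ) = 0 := by omega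
      rw [this, zpow_zero, mul_one]
    rw [h2]
    omega
  have hin : ¬ Dom c p (φ * G ^ (mdeg φ : ℤ)) := by
    intro h
    apply VEE_big hd hC.h2 _ h (mdeg φ)
    have h2 : φ * G ^ (mdeg φ : ℤ) * G⁻¹ ^ mdeg φ = φ := by
      rw [zpow_natCast, inv_pow, mul_assoc, mul_inv_cancel, mul_one]
    rw [h2]
  obtain ⟨b, hb, hmin⟩ := Int.exists_least_of_bdd (P := fun m : ℤ => ¬ Dom c p (φ * G ^ m))
    ⟨-(mdeg φ : ℤ), hlow⟩ ⟨_, hin⟩
  refine ⟨b, ?_, fun m hm => hup b m hb hm, hb, ?_⟩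
  · intro m hm
    by_contra hcon
    have := hmin m hcon
    omega
  · have h1 := hlow b hb
    have h2 := hmin _ hin
    rw [abs_le]
    exact ⟨h1, h2⟩

end Pool.Agent.Work.MP_b2cdcf_wpd
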