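import Pool.Agent.Work.MP_b2cdcf_wpd.Interface

/-! # Block WPD: assembly (helper47) -/

set_option autoImplicit false

open MvPolynomial

noncomputable section

namespace Pool.Agent.Work.MP_b2cdcf_wpd

variable {k : Type} [Field k] {n : ℕ}

theorem WPD_comm [NeZero n] (d : ℕ) (hd : 1 ≤ d) (η : AutP k n) (β : k) (hβ : β ^ (d - 1) = 1)
    (hη : ∀ i, η (X i) = C β * X i) : η * FF k n d = FF k n d * η := by
  have hC : ∀ (G : AutP k n) (a : k), G (C a) = C a := fun G a => G.commutes a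
  have hβd : β ^ d = β := by
    have h1 : β ^ (d - 1 + 1) = β := by rw [pow_succ, hβ, one_mul]
    rwa [show d - 1 + 1 = d by omega] at h1
  have h2 : (η * FF k n d : AutP k n).toAlgHom = (FF k n d * η : AutP k n).toAlgHom := by
    apply algHom_ext
    intro i
    change (η * FF k n d) (X i) = (FF k n d * η) (X i)
    rw [aut_mul_apply, aut_mul_apply, hη, map_mul, hC]
    by_cases hi : i = 1
    · subst hi
      rw [FF_one, map_add, hη, map_sum, mul_add, Finset.mul_sum]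
      congr 1
      apply Finset.sum_congr rfl
      intro j _
      rw [map_pow, hη, mul_pow, ← C_pow, hβd]
    · rw [FF_ne d hi, hη]
  apply AlgEquiv.ext
  intro p
  exact AlgHom.congr_fun h2 p

theorem p_WPD (hCTX : Stmt_CTX) (hCONST : Stmt_CONST) (hRIG : Stmt_RIG) : Stmt_WPD := by
  intro k _ n _ d hn hd hdk B
  have hC : ∀ (G : AutP k n) (a : k), G (C a) = C a := fun G a => G.commutes a
  obtain ⟨M0, h⟩ := hCONST k n _ d (FF k n d) 0 1 (hCTX k n d (by omega) hd hdk) B (4 * n)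
  refine ⟨M0, fun M hM φ h1 h2 h3 h4 => ?_⟩
  obtain ⟨J, b, hJ⟩ := h M hM φ h1 h2 h3 h4
  set F : AutP k n := FF k n d with hF
  have hFb : ∀ b : ℤ, F ^ b * F = F * F ^ b := fun b => (Commute.refl F).zpow_left b |>.eq
  have hrel : ∀ j : ℕ, F * (F ^ (J + j) * φ * (F ^ (J + j))⁻¹ * F ^ b) =
      F ^ (J + (j + 1)) * φ * (F ^ (J + (j + 1)))⁻¹ * F ^ b * F := by
    intro j
    have e1 : F ^ (J + (j + 1)) = F * F ^ (J + j) := by rw [← add_assoc, pow_succ']
    rw [e1, mul_inv_rev]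
    simp only [mul_assoc]
    rw [hFb b, inv_mul_cancel_left]
  obtain ⟨β, hβ, hα⟩ := hRIG k n d hn (by omega) hdk
    (fun j => F ^ (J + j) * φ * (F ^ (J + j))⁻¹ * F ^ b)
    (fun j hj i => hJ (J + j) (by omega) (by omega) i) (fun j _ => hrel j)
  set P : AutP k n := F ^ (J + 2 * n) with hP
  have hcomm := WPD_comm d (by omega) (P * φ * P⁻¹ * F ^ b) β hβ hα
  have hcF : Commute (P * φ * P⁻¹ * F ^ b) F := hcomm
  have hcP : Commute (P * φ * P⁻¹ * F ^ b) P := hcF.pow_right _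
  have hFP : Commute (F ^ (-b)) P := ((Commute.refl F).zpow_left (-b)).pow_right _
  have hφ : φ = F ^ (-b) * (P * φ * P⁻¹ * F ^ b) := by
    have e1 : (P * φ * P⁻¹ * F ^ b) = P⁻¹ * (P * φ * P⁻¹ * F ^ b) * P := by
      rw [mul_assoc P⁻¹, hcP.eq, inv_mul_cancel_left]
    have e2 : P⁻¹ * (P * φ * P⁻¹ * F ^ b) * P = φ * P⁻¹ * F ^ b * P := by
      simp only [mul_assoc]
      rw [inv_mul_cancel_left]
    have hFb2 : Commute (F ^ b) P := ((Commute.refl F).zpow_left b).pow_right _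
    have e3 : φ * P⁻¹ * F ^ b * P = φ * F ^ b := by
      rw [mul_assoc (φ * P⁻¹), hFb2.eq, mul_assoc φ, inv_mul_cancel_left]
    have hcb : Commute (F ^ (-b)) (P * φ * P⁻¹ * F ^ b) := (hcF.zpow_right (-b)).symm
    rw [hcb.eq]
    rw [e2, e3] at e1
    rw [e1, mul_assoc, ← zpow_add, add_neg_cancel, zpow_zero, mul_one]
  refine ⟨β, -b, hβ, fun i => ?_⟩
  have h5 : φ (X i) = (F ^ (-b)) ((P * φ * P⁻¹ * F ^ b) (X i)) := by
    conv_lhs => rw [hφ]
    rfl
  have h6 : (P * φ * P⁻¹ * F ^ b) (X i) = C β * X i := hα i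
  rw [h5, h6, map_mul, hC]

end Pool.Agent.Work.MP_b2cdcf_wpd
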