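import Pool.Agent.Work.MP_b2cdcf_wpd.B_AFF
import Pool.Agent.Work.MP_b2cdcf_wpd.B_CONST
import Pool.Agent.Work.MP_b2cdcf_wpd.B_CP
import Pool.Agent.Work.MP_b2cdcf_wpd.B_CPF
import Pool.Agent.Work.MP_b2cdcf_wpd.B_CTX
import Pool.Agent.Work.MP_b2cdcf_wpd.B_JAC
import Pool.Agent.Work.MP_b2cdcf_wpd.B_KAP
import Pool.Agent.Work.MP_b2cdcf_wpd.B_KEY
import Pool.Agent.Work.MP_b2cdcf_wpd.B_MULT
import Pool.Agent.Work.MP_b2cdcf_wpd.B_PIG
import Pool.Agent.Work.MP_b2cdcf_wpd.B_R1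
import Pool.Agent.Work.MP_b2cdcf_wpd.B_R2
import Pool.Agent.Work.MP_b2cdcf_wpd.B_R3
import Pool.Agent.Work.MP_b2cdcf_wpd.B_REG
import Pool.Agent.Work.MP_b2cdcf_wpd.B_RIG
import Pool.Agent.Work.MP_b2cdcf_wpd.B_VEE
import Pool.Agent.Work.MP_b2cdcf_wpd.B_WPD

/-! # MP_b2cdcf_al, WPD element: all blocks together (helper47) -/

set_option autoImplicit false

open MvPolynomial

noncomputable section

namespace Pool.Agent.Work.MP_b2cdcf_wpd

variable {k : Type} [Field k] {n : ℕ}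

theorem t_CTX : Stmt_CTX := p_CTX p_JAC
theorem t_CP : Stmt_CP := p_CP p_VEE
theorem t_CPF : Stmt_CPF := p_CPF t_CP
theorem t_KAP : Stmt_KAP := p_KAP p_VEE t_CP t_CPF
theorem t_KEY : Stmt_KEY := p_KEY t_CP t_CPF p_REG p_MULT
theorem t_CONST : Stmt_CONST := p_CONST t_CPF t_KAP t_KEY p_PIG
theorem t_R1 : Stmt_R1 := p_R1 p_AFF
theorem t_RIG : Stmt_RIG := p_RIG p_AFF t_R1 p_R2 p_R3
theorem t_WPD : Stmt_WPD := p_WPD t_CTX t_CONST t_RIG

theorem Ctx.mdeg_pow [NeZero n] {c d : ℕ} {G : AutP k n} {p q : Fin n} (h : Ctx c d G p q)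
    (m : ℕ) : mdeg (G ^ m) = d ^ m := by
  cases m with
  | zero => rw [pow_zero, pow_zero, mdeg_one]
  | succ m =>
    have hG : Dom c q G := by
      intro i hi
      rw [h.h1.dq, h.h1.di i hi, mul_one]
      have := h.cd
      omega
    have h1 := (grow h.h1 G hG m).2
    rw [h.mdeg_eq, ← pow_succ'] at h1
    rw [h1, pow_succ]

theorem Ctx.mdeg_zpow [NeZero n] {c d : ℕ} {G : AutP k n} {p q : Fin n} (h : Ctx c d G p q)
    (b : ℤ) : mdeg (G ^ b) = d ^ b.natAbs := by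
  rcases Int.natAbs_eq b with hb | hb
  · conv_lhs => rw [hb]
    rw [zpow_natCast, h.mdeg_pow]
  · conv_lhs => rw [hb]
    rw [zpow_neg, zpow_natCast, ← inv_pow, h.symm.mdeg_pow]

/-- the degree of a homothety composed with a power of `F` -/
theorem mdeg_homothety (φ ψ : AutP k n) (β : k) (hβ : β ≠ 0)
    (h : ∀ i, φ (X i) = C β * ψ (X i)) : mdeg φ = mdeg ψ := by
  unfold mdeg
  apply Finset.sup_congr rfl
  intro i _
  rw [h i, totalDegree_mul_of_isDomain (by rwa [Ne, C_eq_zero]) ?_, totalDegree_C, zero_add]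
  intro h0
  have h1 : (X i : MvPolynomial (Fin n) k) = 0 := by
    apply ψ.injective
    rw [h0, map_zero]
  exact X_ne_zero _ h1

/-- the V shape -/
theorem final_vee [NeZero n] {c d : ℕ} {G : AutP k n} {p q : Fin n} (h : Ctx c d G p q)
    (φ : AutP k n) : ∃ b : ℤ,
      (∀ m : ℤ, b < m → mdeg (φ * G ^ (m + 1)) = d * mdeg (φ * G ^ m)) ∧
      (∀ m : ℤ, m < b → mdeg (φ * G ^ (m - 1)) = d * mdeg (φ * G ^ m)) := by
  obtain ⟨b, h1, h2, -, -⟩ := p_VEE k n c d G p q h φ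
  refine ⟨b, fun m hm => ?_, fun m hm => ?_⟩
  · have h3 := h.h1.mul _ (h2 m hm)
    rw [zpow_add_one, ← mul_assoc]
    exact h3
  · have h3 := h.h2.mul _ (h1 m hm)
    rw [zpow_sub_one, ← mul_assoc]
    exact h3

/-- the exponents of conjugate powers agree up to sign -/
theorem final_abs [NeZero n] {c d : ℕ} {G : AutP k n} {p q : Fin n} (h : Ctx c d G p q)
    (φ : AutP k n) (i : ℕ) (j : ℤ) (hij : φ * G ^ i = G ^ j * φ) : j.natAbs = i := by
  have hd := h.d2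
  have hpow : ∀ m : ℕ, φ * (G ^ (i * m)) * φ⁻¹ = G ^ (j * (m : ℤ)) := by
    intro m
    have h1 : G ^ j = φ * G ^ i * φ⁻¹ := by rw [hij]; group
    rw [zpow_mul, h1, zpow_natCast, conj_pow, pow_mul]
  have e1 : ∀ m : ℕ, d ^ (j.natAbs * m) ≤ (mdeg φ * mdeg φ⁻¹) * d ^ (i * m) := by
    intro m
    have h1 := congrArg mdeg (hpow m)
    rw [h.mdeg_zpow, Int.natAbs_mul, Int.natAbs_natCast] at h1
    rw [← h1]
    calc mdeg (φ * G ^ (i * m) * φ⁻¹) ≤ mdeg (φ * G ^ (i * m)) * mdeg φ⁻¹ := mdeg_mul_le _ _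
      _ ≤ (mdeg φ * mdeg (G ^ (i * m))) * mdeg φ⁻¹ :=
          Nat.mul_le_mul_right _ (mdeg_mul_le _ _)
      _ = _ := by rw [h.mdeg_pow]; ring
  have e2 : ∀ m : ℕ, d ^ (i * m) ≤ (mdeg φ * mdeg φ⁻¹) * d ^ (j.natAbs * m) := by
    intro m
    have h0 : G ^ (i * m) = φ⁻¹ * G ^ (j * (m : ℤ)) * φ := by rw [← hpow m]; group
    have h1 := congrArg mdeg h0
    rw [h.mdeg_pow] at h1
    rw [h1]
    calc mdeg (φ⁻¹ * G ^ (j * (m : ℤ)) * φ) ≤ mdeg (φ⁻¹ * G ^ (j * (m : ℤ))) * mdeg φ :=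
          mdeg_mul_le _ _
      _ ≤ (mdeg φ⁻¹ * mdeg (G ^ (j * (m : ℤ)))) * mdeg φ :=
          Nat.mul_le_mul_right _ (mdeg_mul_le _ _)
      _ = _ := by
          rw [h.mdeg_zpow, Int.natAbs_mul, Int.natAbs_natCast]; ring
  -- a general comparison
  have key : ∀ a b K : ℕ, (∀ m : ℕ, d ^ (a * m) ≤ K * d ^ (b * m)) → a ≤ b := by
    intro a b K hK
    by_contra hcon
    push Not at hcon
    have h1 := hK (K + 1)
    have h2 : d ^ (b * (K + 1)) * 2 ^ (K + 1) ≤ d ^ (a * (K + 1)) := by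
      calc d ^ (b * (K + 1)) * 2 ^ (K + 1) ≤ d ^ (b * (K + 1)) * d ^ (K + 1) :=
            Nat.mul_le_mul_left _ (Nat.pow_le_pow_left hd _)
        _ = d ^ ((b + 1) * (K + 1)) := by rw [← pow_add]; ring_nf
        _ ≤ _ := Nat.pow_le_pow_right (by omega) (Nat.mul_le_mul_right _ hcon)
    have h3 : K < 2 ^ (K + 1) := by
      calc K < 2 ^ K := Nat.lt_two_pow_self
        _ ≤ 2 ^ (K + 1) := Nat.pow_le_pow_right (by norm_num) (Nat.le_succ K)
    have h4 : 0 < d ^ (b * (K + 1)) := pow_pos (by omega) _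
    have h5 : d ^ (b * (K + 1)) * 2 ^ (K + 1) ≤ K * d ^ (b * (K + 1)) := h2.trans h1
    rw [mul_comm] at h5
    exact absurd (Nat.le_of_mul_le_mul_right h5 h4) (by omega)
  exact le_antisymm (key _ _ _ e1) (key _ _ _ e2)

end Pool.Agent.Work.MP_b2cdcf_wpd
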