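import Pool.Agent.Work.MP_b2cdcf_wpd.Interface

/-! # Block AFF: polynomials of degree one (helper47) -/

set_option autoImplicit false

open MvPolynomial

noncomputable section

namespace Pool.Agent.Work.MP_b2cdcf_wpd

theorem AFF_coeff {k : Type} [Field k] {n : ℕ} (t : k) (b : Fin n → k) (m : Fin n →₀ ℕ) :
    coeff m (C t + ∑ l, C (b l) * X l : MvPolynomial (Fin n) k) =
      (if m = 0 then t else 0) + ∑ l, if m = Finsupp.single l 1 then b l else 0 := by
  rw [coeff_add, coeff_C, coeff_sum]
  congr 1
  · by_cases h : m = 0
    · rw [if_pos h, if_pos h.symm]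
    · rw [if_neg h, if_neg (fun h' => h h'.symm)]
  · refine Finset.sum_congr rfl fun l _ => ?_
    rw [coeff_C_mul, coeff_X']
    by_cases h : m = Finsupp.single l 1
    · rw [if_pos h, if_pos h.symm, mul_one]
    · rw [if_neg h, if_neg (fun h' => h h'.symm), mul_zero]

theorem AFF_poly {k : Type} [Field k] {n : ℕ} (p : MvPolynomial (Fin n) k)
    (hp : p.totalDegree ≤ 1) :
    p = C (coeff 0 p) + ∑ l, C (coeff (Finsupp.single l 1) p) * X l := by
  ext m
  rw [AFF_coeff]
  by_cases hm : m = 0
  · subst hm
    rw [if_pos rfl]
    have h1 : ∑ l : Fin n, (if (0 : Fin n →₀ ℕ) = Finsupp.single l 1 then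
        coeff (Finsupp.single l 1) p else 0) = 0 := by
      apply Finset.sum_eq_zero
      intro l _
      rw [if_neg]
      intro h
      have := DFunLike.congr_fun h l
      simp at this
    rw [h1, add_zero]
  · rw [if_neg hm, zero_add]
    by_cases hs : ∃ l, m = Finsupp.single l 1
    · obtain ⟨l, rfl⟩ := hs
      rw [Finset.sum_eq_single l]
      · rw [if_pos rfl]
      · intro l' _ hl'
        rw [if_neg]
        intro h
        have := DFunLike.congr_fun h l'
        rw [Finsupp.single_eq_same, Finsupp.single_eq_of_ne hl'] at this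
        exact zero_ne_one this
      · intro h
        exact absurd (Finset.mem_univ l) h
    · have h1 : ∑ l : Fin n, (if m = Finsupp.single l 1 then
          coeff (Finsupp.single l 1) p else 0) = 0 := by
        apply Finset.sum_eq_zero
        intro l _
        rw [if_neg]
        intro h
        exact hs ⟨l, h⟩
      rw [h1]
      by_contra hc
      have h2 := le_totalDegree (mem_support_iff.2 hc)
      have h3 : (m.sum fun _ e => e) ≤ 1 := h2.trans hp
      obtain ⟨l, hl⟩ : ∃ l, m l ≠ 0 := by
        by_contra hcon
        push Not at hcon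
        exact hm (Finsupp.ext hcon)
      apply hs
      refine ⟨l, ?_⟩
      ext l'
      have h4 : (m.sum fun _ e => e) = ∑ i, m i := by
        rw [Finsupp.sum_fintype]
        intro _
        rfl
      rw [h4, ← Finset.add_sum_erase _ _ (Finset.mem_univ l)] at h3
      by_cases hll : l' = l
      · subst hll
        rw [Finsupp.single_eq_same]
        omega
      · rw [Finsupp.single_eq_of_ne hll]
        have h5 : m l' ≤ ∑ i ∈ Finset.univ.erase l, m i :=
          Finset.single_le_sum (f := fun i => m i) (fun _ _ => Nat.zero_le _)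
            (Finset.mem_erase.2 ⟨hll, Finset.mem_univ _⟩)
        omega

theorem p_AFF : Stmt_AFF := by
  intro k _ n α i h
  exact AFF_poly _ (le_of_eq h)

end Pool.Agent.Work.MP_b2cdcf_wpd
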