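import Pool.Agent.Work.MP_b2cdcf_wpd.Interface

/-! # Block R1: relations for affine automorphisms (helper47) -/

set_option autoImplicit false

open MvPolynomial

noncomputable section

namespace Pool.Agent.Work.MP_b2cdcf_wpd

variable {k : Type} [Field k] {n : ℕ}

theorem R1_single {a b : Fin n} {e f : ℕ} (hf : f ≠ 0)
    (h : Finsupp.single a e = Finsupp.single b f) : a = b ∧ e = f := by
  rcases Finsupp.single_eq_single_iff a b e f |>.1 h with h1 | h1
  · exact h1
  · exact absurd h1.2 hf

theorem R1_coeff_pow (a : Fin n) (d e : ℕ) (hde : e ≠ d) (he : e ≠ 0) (s : Finset (Fin n)) :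
    coeff (Finsupp.single a e) (∑ j ∈ s, (X j : MvPolynomial (Fin n) k) ^ d) = 0 := by
  rw [coeff_sum]
  apply Finset.sum_eq_zero
  intro j _
  rw [coeff_X_pow, if_neg]
  intro h
  exact hde (R1_single he h).2.symm

theorem R1_coeff_pow0 (d : ℕ) (hd : d ≠ 0) (s : Finset (Fin n)) :
    coeff 0 (∑ j ∈ s, (X j : MvPolynomial (Fin n) k) ^ d) = 0 := by
  rw [coeff_sum]
  apply Finset.sum_eq_zero
  intro j _
  rw [coeff_X_pow, if_neg]
  intro h
  have := DFunLike.congr_fun h j
  rw [Finsupp.single_eq_same] at this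
  exact hd this

theorem R1_coeff_powd (a : Fin n) (d : ℕ) (hd : d ≠ 0) (s : Finset (Fin n)) (ha : a ∈ s) :
    coeff (Finsupp.single a d) (∑ j ∈ s, (X j : MvPolynomial (Fin n) k) ^ d) = 1 := by
  rw [coeff_sum, Finset.sum_eq_single a]
  · rw [coeff_X_pow, if_pos rfl]
  · intro j _ hj
    rw [coeff_X_pow, if_neg]
    intro h
    exact hj (R1_single hd h).1
  · intro h
    exact absurd ha h

theorem R1_coeffX (a j : Fin n) (e : ℕ) (he : e ≠ 0) :
    coeff (Finsupp.single a e) (X j : MvPolynomial (Fin n) k) =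
      if j = a ∧ e = 1 then 1 else 0 := by
  have h0 := coeff_X_pow (R := k) j (Finsupp.single a e) 1
  rw [pow_one] at h0
  rw [h0]
  by_cases h : j = a ∧ e = 1
  · rw [if_pos h, if_pos]
    rw [h.1, h.2]
  · rw [if_neg h, if_neg]
    intro h'
    have := R1_single he h'
    exact h ⟨this.1, this.2.symm⟩

theorem R1_coeffX0 (j : Fin n) : coeff 0 (X j : MvPolynomial (Fin n) k) = 0 := by
  have h0 := coeff_X_pow (R := k) j 0 1
  rw [pow_one] at h0
  rw [h0, if_neg]
  intro h
  have := DFunLike.congr_fun h j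
  rw [Finsupp.single_eq_same] at this
  exact one_ne_zero this

/-- coefficients of the image of an affine polynomial -/
theorem R1_apply (G : AutP k n) (t : k) (b : Fin n → k) (m : Fin n →₀ ℕ) :
    coeff m (G (C t + ∑ l, C (b l) * X l)) =
      coeff m (C t : MvPolynomial (Fin n) k) + ∑ l, b l * coeff m (G (X l)) := by
  have h1 : ∀ a, G (C a) = C a := fun a => G.commutes a
  rw [map_add, map_sum, h1, coeff_add, coeff_sum]
  congr 1
  refine Finset.sum_congr rfl fun l _ => ?_
  rw [map_mul, h1, coeff_C_mul]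

theorem R1_high (α : AutP k n) (i a : Fin n) (d : ℕ) (hd : 2 ≤ d) (h : dg α i = 1) :
    coeff (Finsupp.single a d) (α (X i)) = 0 := by
  by_contra hc
  have h2 := le_totalDegree (mem_support_iff.2 hc)
  rw [Finsupp.sum_single_index rfl] at h2
  unfold dg at h
  omega

theorem p_R1 (hAFF : Stmt_AFF) : Stmt_R1 := by
  intro k _ n _ d hn hd α α' hα hα' hrel
  have hd0 : d ≠ 0 := by omega
  have hd1 : d ≠ 1 := by omega
  have h01 : (0 : Fin n) ≠ 1 := by
    intro h
    have := congrArg Fin.val h
    rw [Fin.val_zero, Fin.val_one'] at this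
    rw [Nat.mod_eq_of_lt (by omega)] at this
    omega
  have hC : ∀ (G : AutP k n) (a : k), G (C a) = C a := fun G a => G.commutes a
  have hCc : ∀ (t : k) (a : Fin n) (e : ℕ), e ≠ 0 →
      coeff (Finsupp.single a e) (C t : MvPolynomial (Fin n) k) = 0 := by
    intro t a e he
    rw [coeff_C, if_neg]
    intro h
    have := DFunLike.congr_fun h a
    rw [Finsupp.single_eq_same] at this
    exact he this.symm
  -- evaluation of the relation
  have hev : ∀ i, i ≠ 1 → FF k n d (α (X i)) = α' (X (i - 1)) := by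
    intro i hi
    have h1 := AlgEquiv.congr_fun hrel (X i)
    rw [aut_mul_apply, aut_mul_apply, FF_ne d hi] at h1
    exact h1
  have hrel2 : (FF k n d)⁻¹ * α' = α * (FF k n d)⁻¹ := by
    have h1 : α' = FF k n d * α * (FF k n d)⁻¹ := by rw [hrel]; group
    rw [h1]
    group
  have hev2 : ∀ i, i ≠ 0 → (FF k n d)⁻¹ (α' (X i)) = α (X (i + 1)) := by
    intro i hi
    have h1 := AlgEquiv.congr_fun hrel2 (X i)
    rw [aut_mul_apply, aut_mul_apply, FF_inv_ne d hi] at h1
    exact h1
  refine ⟨?_, ?_, ?_, ?_⟩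
  · intro i hi
    have h1 := congrArg (coeff (Finsupp.single 1 d)) (hev i hi)
    rw [R1_high α' _ _ d hd (hα' _), hAFF k n α i (hα i), R1_apply, hCc _ _ _ hd0, zero_add,
      Finset.sum_eq_single 1] at h1
    · rw [FF_one, coeff_add, R1_coeffX _ _ _ hd0, if_neg (fun h => hd1 h.2), zero_add,
        R1_coeff_powd 1 d hd0 _ (Finset.mem_erase.2 ⟨h01.symm, Finset.mem_univ _⟩), mul_one] at h1
      exact h1
    · intro l _ hl
      rw [FF_ne d hl, R1_coeffX _ _ _ hd0, if_neg (fun h => hd1 h.2), mul_zero]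
    · intro h
      exact absurd (Finset.mem_univ _) h
  · intro i hi
    have h1 := congrArg (coeff (Finsupp.single 0 d)) (hev2 i hi)
    rw [R1_high α _ _ d hd (hα _), hAFF k n α' i (hα' i), R1_apply, hCc _ _ _ hd0, zero_add,
      Finset.sum_eq_single 0] at h1
    · rw [FF_inv_zero, coeff_sub, R1_coeffX _ _ _ hd0, if_neg (fun h => hd1 h.2),
        R1_coeff_powd 0 d hd0 _ (Finset.mem_erase.2 ⟨h01, Finset.mem_univ _⟩), zero_sub,
        mul_neg, mul_one, neg_eq_zero] at h1
      exact h1
    · intro l _ hl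
      rw [FF_inv_ne d hl, R1_coeffX _ _ _ hd0, if_neg (fun h => hd1 h.2), mul_zero]
    · intro h
      exact absurd (Finset.mem_univ _) h
  · intro i l hi
    have h1 := congrArg (coeff (Finsupp.single (l - 1) 1)) (hev i hi)
    rw [hAFF k n α i (hα i), R1_apply, hCc _ _ _ one_ne_zero, zero_add,
      Finset.sum_eq_single l] at h1
    · have h2 : coeff (Finsupp.single (l - 1) 1) (FF k n d (X l)) = 1 := by
        by_cases hl : l = 1
        · subst hl
          rw [FF_one, coeff_add, R1_coeffX _ _ _ one_ne_zero, if_pos ⟨(sub_self _).symm, rfl⟩,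
            R1_coeff_pow _ _ _ hd1.symm one_ne_zero, add_zero]
        · rw [FF_ne d hl, R1_coeffX _ _ _ one_ne_zero, if_pos ⟨rfl, rfl⟩]
      rw [h2, mul_one] at h1
      exact h1.symm
    · intro l' _ hl'
      have h2 : coeff (Finsupp.single (l - 1) 1) (FF k n d (X l')) = 0 := by
        by_cases hl : l' = 1
        · subst hl
          rw [FF_one, coeff_add, R1_coeffX _ _ _ one_ne_zero, if_neg,
            R1_coeff_pow _ _ _ hd1.symm one_ne_zero, add_zero]
          rintro ⟨h, -⟩
          exact hl' (sub_eq_zero.1 h.symm).symm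
        · rw [FF_ne d hl, R1_coeffX _ _ _ one_ne_zero, if_neg]
          rintro ⟨h, -⟩
          exact hl' (sub_left_injective h)
      rw [h2, mul_zero]
    · intro h
      exact absurd (Finset.mem_univ _) h
  · intro i hi
    have h1 := congrArg (coeff 0) (hev i hi)
    rw [hAFF k n α i (hα i), R1_apply, coeff_C, if_pos rfl] at h1
    have h2 : ∑ l, bc α i l * coeff 0 (FF k n d (X l)) = 0 := by
      apply Finset.sum_eq_zero
      intro l _
      have h3 : coeff 0 (FF k n d (X l)) = 0 := by
        by_cases hl : l = 1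
        · subst hl
          rw [FF_one, coeff_add, R1_coeffX0, R1_coeff_pow0 _ hd0, add_zero]
        · rw [FF_ne d hl, R1_coeffX0]
      rw [h3, mul_zero]
    rw [h2, add_zero] at h1
    exact h1.symm

end Pool.Agent.Work.MP_b2cdcf_wpd
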