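import Mathlib

/-!
# MP_b2cdcf_al: a contracting WPD element of `Aut k[x_1, ..., x_n]` (note 2965)

Definitions and the basic interface.  Composition: `(φ * ψ) p = φ (ψ p)`.
-/

set_option autoImplicit false

open MvPolynomial

noncomputable section

namespace Pool.Agent.Work.MP_b2cdcf_wpd

/-- Automorphisms of the polynomial ring in `n` variables. -/
abbrev AutP (k : Type) [Field k] (n : ℕ) : Type :=
  MvPolynomial (Fin n) k ≃ₐ[k] MvPolynomial (Fin n) k

variable {k : Type} [Field k] {n : ℕ}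

/-- The degree of the `i`-th component. -/
def dg (φ : AutP k n) (i : Fin n) : ℕ := (φ (X i)).totalDegree

/-- The degree of an automorphism: the largest total degree of its components. -/
def mdeg (φ : AutP k n) : ℕ := Finset.univ.sup fun i => (φ (X i)).totalDegree

/-- The component `s` dominates: `c` times any other degree is at most its degree. -/
def Dom (c : ℕ) (s : Fin n) (φ : AutP k n) : Prop := ∀ i, i ≠ s → c * dg φ i ≤ dg φ s

theorem dg_le (φ : AutP k n) (i : Fin n) : dg φ i ≤ mdeg φ :=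
  Finset.le_sup (f := fun i => (φ (X i)).totalDegree) (Finset.mem_univ i)

theorem mdeg_le (φ : AutP k n) (B : ℕ) (h : ∀ i, dg φ i ≤ B) : mdeg φ ≤ B :=
  Finset.sup_le fun i _ => h i

theorem exists_dg [NeZero n] (φ : AutP k n) : ∃ i, mdeg φ = dg φ i := by
  obtain ⟨i, -, hi⟩ := Finset.exists_mem_eq_sup (Finset.univ : Finset (Fin n))
    ⟨0, Finset.mem_univ _⟩ (fun i => (φ (X i)).totalDegree)
  exact ⟨i, hi⟩

theorem one_le_dg (φ : AutP k n) (i : Fin n) : 1 ≤ dg φ i := by
  by_contra h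
  have h0 : (φ (X i)).totalDegree = 0 := by unfold dg at h; omega
  rw [totalDegree_eq_zero_iff_eq_C] at h0
  have h1 : φ (X i) = φ (C (coeff 0 (φ (X i)))) := by
    conv_lhs => rw [h0]
    exact (φ.commutes _).symm
  have h2 := φ.injective h1
  have h3 := congrArg totalDegree h2
  rw [totalDegree_X, totalDegree_C] at h3
  exact one_ne_zero h3

theorem one_le_mdeg [NeZero n] (φ : AutP k n) : 1 ≤ mdeg φ :=
  (one_le_dg φ 0).trans (dg_le φ 0)

theorem aut_mul_apply (φ ψ : AutP k n) (p : MvPolynomial (Fin n) k) : (φ * ψ) p = φ (ψ p) := rfl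

/-- The degree of the image of a monomial. -/
theorem totalDegree_prod_le (φ : AutP k n) (s : Fin n →₀ ℕ) :
    (s.prod fun i e => φ (X i) ^ e).totalDegree ≤ s.sum fun i e => e * dg φ i := by
  unfold Finsupp.prod Finsupp.sum
  refine (totalDegree_finsetProd _ _).trans (Finset.sum_le_sum fun i _ => ?_)
  exact totalDegree_pow _ _

theorem aut_eq_sum (φ : AutP k n) (p : MvPolynomial (Fin n) k) :
    φ p = ∑ s ∈ p.support, C (coeff s p) * (s.prod fun i e => φ (X i) ^ e) := by
  have h1 : (φ : MvPolynomial (Fin n) k →ₐ[k] MvPolynomial (Fin n) k) =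
      aeval fun i => φ (X i) := by
    apply algHom_ext
    intro i
    simp
  have h2 : φ p = aeval (fun i => φ (X i)) p := by
    rw [← h1]
    rfl
  rw [h2, aeval_def, eval₂_eq]
  rfl

theorem totalDegree_aut_le (φ : AutP k n) (p : MvPolynomial (Fin n) k) :
    (φ p).totalDegree ≤ mdeg φ * p.totalDegree := by
  rw [aut_eq_sum φ p]
  refine (totalDegree_finsetSum _ _).trans (Finset.sup_le fun s hs => ?_)
  refine (totalDegree_mul _ _).trans ?_
  rw [totalDegree_C, zero_add]
  refine (totalDegree_prod_le φ s).trans ?_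
  calc (s.sum fun i e => e * dg φ i) ≤ s.sum fun i e => e * mdeg φ :=
        Finset.sum_le_sum fun i _ => Nat.mul_le_mul_left _ (dg_le φ i)
    _ = mdeg φ * s.sum fun _ e => e := by
        unfold Finsupp.sum
        rw [Finset.mul_sum]
        exact Finset.sum_congr rfl fun i _ => mul_comm _ _
    _ ≤ mdeg φ * p.totalDegree := Nat.mul_le_mul_left _ (le_totalDegree hs)

theorem mdeg_mul_le (φ ψ : AutP k n) : mdeg (φ * ψ) ≤ mdeg φ * mdeg ψ :=
  mdeg_le _ _ fun i => (totalDegree_aut_le φ (ψ (X i))).trans (Nat.mul_le_mul_left _ (dg_le ψ i))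

theorem dg_mul_le (φ ψ : AutP k n) (i : Fin n) : dg (φ * ψ) i ≤ mdeg φ * dg ψ i :=
  totalDegree_aut_le φ (ψ (X i))

theorem mdeg_one [NeZero n] : mdeg (1 : AutP k n) = 1 := by
  apply le_antisymm
  · apply mdeg_le
    intro i
    unfold dg
    rw [AlgEquiv.one_apply, totalDegree_X]
  · exact one_le_mdeg 1

theorem Dom.mdeg_eq {c : ℕ} {s : Fin n} {φ : AutP k n} (hc : 1 ≤ c) (h : Dom c s φ) :
    mdeg φ = dg φ s := by
  apply le_antisymm _ (dg_le φ s)
  apply mdeg_le
  intro i
  by_cases hi : i = s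
  · rw [hi]
  · calc dg φ i = 1 * dg φ i := (one_mul _).symm
      _ ≤ c * dg φ i := Nat.mul_le_mul_right _ hc
      _ ≤ _ := h i hi

theorem Dom.lt {c : ℕ} {s i : Fin n} {φ : AutP k n} (hc : 2 ≤ c) (h : Dom c s φ) (hi : i ≠ s) :
    dg φ i < dg φ s := by
  have h1 := h i hi
  have h2 := one_le_dg φ i
  nlinarith

theorem Dom.le_mdeg {c : ℕ} {s i : Fin n} {φ : AutP k n} (h : Dom c s φ) (hi : i ≠ s) :
    c ≤ mdeg φ := by
  have h1 := h i hi
  have h2 := one_le_dg φ i
  calc c = c * 1 := (mul_one _).symm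
    _ ≤ c * dg φ i := Nat.mul_le_mul_left _ h2
    _ ≤ dg φ s := h1
    _ ≤ mdeg φ := dg_le φ s

theorem not_dom_both {c : ℕ} {p q : Fin n} {φ : AutP k n} (hc : 2 ≤ c) (hpq : p ≠ q)
    (h1 : Dom c p φ) (h2 : Dom c q φ) : False := by
  have := h1.lt hc hpq.symm
  have := h2.lt hc hpq
  omega

/-! ### the automorphism `F` -/

section
variable [NeZero n]

/-- images of the variables under `F` -/
def fw (k : Type) [Field k] (n d : ℕ) [NeZero n] (i : Fin n) : MvPolynomial (Fin n) k :=
  if i = 1 then X 0 + ∑ j ∈ Finset.univ.erase 0, X j ^ d else X (i - 1)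

/-- images of the variables under the inverse of `F` -/
def bw (k : Type) [Field k] (n d : ℕ) [NeZero n] (i : Fin n) : MvPolynomial (Fin n) k :=
  if i = 0 then X 1 - ∑ j ∈ Finset.univ.erase 1, X j ^ d else X (i + 1)

theorem fw_bw (d : ℕ) (i : Fin n) : aeval (fw k n d) (bw k n d i) = X i := by
  unfold bw
  split_ifs with h
  · subst h
    rw [map_sub, map_sum, aeval_X]
    have h1 : ∑ j ∈ Finset.univ.erase (1 : Fin n), aeval (fw k n d) ((X j : MvPolynomial (Fin n) k) ^ d) =
        ∑ j ∈ Finset.univ.erase (0 : Fin n), (X j : MvPolynomial (Fin n) k) ^ d := by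
      apply Finset.sum_bij (fun j _ => j - 1)
      · intro j hj
        rw [Finset.mem_erase] at hj ⊢
        exact ⟨sub_ne_zero.2 hj.1, Finset.mem_univ _⟩
      · intro j _ j' _ h
        exact sub_left_injective h
      · intro j hj
        rw [Finset.mem_erase] at hj
        refine ⟨j + 1, ?_, by simp⟩
        rw [Finset.mem_erase]
        refine ⟨?_, Finset.mem_univ _⟩
        intro h
        exact hj.1 (by simpa using h)
      · intro j hj
        rw [Finset.mem_erase] at hj
        rw [map_pow, aeval_X, fw, if_neg hj.1]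
    rw [h1, fw, if_pos rfl]
    ring
  · have h2 : i + 1 ≠ 1 := by
      intro h3
      exact h (by simpa using h3)
    rw [aeval_X, fw, if_neg h2, add_sub_cancel_right]

theorem bw_fw (d : ℕ) (i : Fin n) : aeval (bw k n d) (fw k n d i) = X i := by
  unfold fw
  split_ifs with h
  · subst h
    rw [map_add, map_sum, aeval_X]
    have h1 : ∑ j ∈ Finset.univ.erase (0 : Fin n), aeval (bw k n d) ((X j : MvPolynomial (Fin n) k) ^ d) =
        ∑ j ∈ Finset.univ.erase (1 : Fin n), (X j : MvPolynomial (Fin n) k) ^ d := by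
      apply Finset.sum_bij (fun j _ => j + 1)
      · intro j hj
        rw [Finset.mem_erase] at hj ⊢
        refine ⟨?_, Finset.mem_univ _⟩
        intro h
        exact hj.1 (by simpa using h)
      · intro j _ j' _ h
        exact add_left_injective _ h
      · intro j hj
        rw [Finset.mem_erase] at hj
        refine ⟨j - 1, ?_, by simp⟩
        rw [Finset.mem_erase]
        exact ⟨sub_ne_zero.2 hj.1, Finset.mem_univ _⟩
      · intro j hj
        rw [Finset.mem_erase] at hj
        rw [map_pow, aeval_X, bw, if_neg hj.1]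
    rw [h1, bw, if_pos rfl]
    ring
  · have h2 : i - 1 ≠ 0 := sub_ne_zero.2 h
    rw [aeval_X, bw, if_neg h2, sub_add_cancel]

/-- `F(X_1) = X_0 + ∑_{j ≠ 0} X_j^d`, `F(X_i) = X_(i-1)` for `i ≠ 1` (indices modulo `n`). -/
def FF (k : Type) [Field k] (n d : ℕ) [NeZero n] : AutP k n :=
  AlgEquiv.ofAlgHom (aeval (fw k n d)) (aeval (bw k n d))
    (algHom_ext fun i => by
      rw [AlgHom.comp_apply, aeval_X]
      exact fw_bw d i)
    (algHom_ext fun i => by
      rw [AlgHom.comp_apply, aeval_X]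
      exact bw_fw d i)

theorem FF_X (d : ℕ) (i : Fin n) : FF k n d (X i) = fw k n d i := aeval_X _ _

theorem FF_inv_X (d : ℕ) (i : Fin n) : (FF k n d)⁻¹ (X i) = bw k n d i := aeval_X _ _

theorem FF_one (d : ℕ) : FF k n d (X 1) = X 0 + ∑ j ∈ Finset.univ.erase 0, X j ^ d := by
  rw [FF_X, fw, if_pos rfl]

theorem FF_ne (d : ℕ) {i : Fin n} (hi : i ≠ 1) : FF k n d (X i) = X (i - 1) := by
  rw [FF_X, fw, if_neg hi]

theorem FF_inv_zero (d : ℕ) :
    (FF k n d)⁻¹ (X 0) = X 1 - ∑ j ∈ Finset.univ.erase 1, X j ^ d := by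
  rw [FF_inv_X, bw, if_pos rfl]

theorem FF_inv_ne (d : ℕ) {i : Fin n} (hi : i ≠ 0) : (FF k n d)⁻¹ (X i) = X (i + 1) := by
  rw [FF_inv_X, bw, if_neg hi]

end

/-- The properties of `G = F` (with `p = 0`, `q = 1`) and of `G = F⁻¹` (with `p = 1`, `q = 0`). -/
structure Half (c d : ℕ) (G : AutP k n) (p q : Fin n) : Prop where
  /-- if `p` does not dominate then, after `G`, `q` dominates -/
  dom : ∀ φ : AutP k n, ¬ Dom c p φ → Dom c q (φ * G)
  /-- and its degree is large -/
  big : ∀ φ : AutP k n, ¬ Dom c p φ → ∀ i, i ≠ p → c * dg φ i + (n - 1) ≤ dg (φ * G) q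
  /-- and the degree has increased -/
  lt : ∀ φ : AutP k n, ¬ Dom c p φ → mdeg φ < mdeg (φ * G)
  /-- if `q` dominates then it dominates after `G` -/
  step : ∀ φ : AutP k n, Dom c q φ → Dom c q (φ * G)
  /-- and the degree is multiplied by `d` -/
  mul : ∀ φ : AutP k n, Dom c q φ → mdeg (φ * G) = d * mdeg φ
  /-- the degrees of `G` -/
  dq : dg G q = d
  di : ∀ i, i ≠ q → dg G i = 1

/-- `c_+(φ)`: `mdeg (φ G^m) = cp d G φ * d^m` for all large `m` (block CP). -/
def cp (d : ℕ) (G φ : AutP k n) : ℚ := (mdeg (φ * G ^ (mdeg φ + 1)) : ℚ) / (d : ℚ) ^ (mdeg φ + 1)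

end Pool.Agent.Work.MP_b2cdcf_wpd
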