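import Pool.Agent.Work.MP_b2cdcf_wpd.Defs

/-!
# MP_b2cdcf_al, WPD element: statements of the blocks (proofs in the docstrings, note 2965)

File `B_X.lean` (import this file), namespace `Pool.Agent.Work.MP_b2cdcf_wpd`, helper lemmas prefixed
`X_`, final theorem `p_X (h1 : Stmt_Y) ... : Stmt_X`.
-/

set_option autoImplicit false

open MvPolynomial

noncomputable section

namespace Pool.Agent.Work.MP_b2cdcf_wpd

variable {k : Type} [Field k] {n : ℕ}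

/-- The common hypotheses: `G = F`, `p = 0`, `q = 1` or `G = F⁻¹`, `p = 1`, `q = 0`. -/
structure Ctx (c d : ℕ) (G : AutP k n) (p q : Fin n) : Prop where
  pq : p ≠ q
  c2 : 2 ≤ c
  cd : c + (n - 1) = d
  dc : d < c * c
  h1 : Half c d G p q
  h2 : Half c d G⁻¹ q p

theorem Ctx.symm {c d : ℕ} {G : AutP k n} {p q : Fin n} (h : Ctx c d G p q) :
    Ctx c d G⁻¹ q p :=
  ⟨h.pq.symm, h.c2, h.cd, h.dc, h.h2, by rw [inv_inv]; exact h.h1⟩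

theorem Ctx.d2 {c d : ℕ} {G : AutP k n} {p q : Fin n} (h : Ctx c d G p q) : 2 ≤ d :=
  h.c2.trans (by have := h.cd; omega)

theorem grow {c d : ℕ} {G : AutP k n} {p q : Fin n} (h : Half c d G p q) (φ : AutP k n)
    (hφ : Dom c q φ) (m : ℕ) : Dom c q (φ * G ^ m) ∧ mdeg (φ * G ^ m) = d ^ m * mdeg φ := by
  induction m with
  | zero => simpa using hφ
  | succ m ih =>
    have e : φ * G ^ (m + 1) = φ * G ^ m * G := by rw [pow_succ, mul_assoc]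
    rw [e]
    refine ⟨h.step _ ih.1, ?_⟩
    rw [h.mul _ ih.1, ih.2, pow_succ]
    ring

theorem Ctx.mdeg_eq [NeZero n] {c d : ℕ} {G : AutP k n} {p q : Fin n} (h : Ctx c d G p q) :
    mdeg G = d := by
  apply le_antisymm
  · apply mdeg_le
    intro i
    by_cases hi : i = q
    · rw [hi, h.h1.dq]
    · rw [h.h1.di i hi]
      exact (by norm_num : 1 ≤ 2).trans h.d2
  · rw [← h.h1.dq]
    exact dg_le G q

/-- JAC (120 lines). Jacobian inequality. `J i l = pderiv l (φ (X i))`; chain rule for `φ * φ⁻¹ = 1`: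
`det J` is a unit, so a nonzero constant (totalDegree 0). `Q` = the sum, `i* ≠ j` with
`dg φ i* = M ≥ 1`. As `∑ l, J j l * adjugate J l j = det J ≠ 0` there is `l` with
`det (J.updateRow j (Pi.single l 1)) = adjugate J l j ≠ 0` (`Matrix.adjugate_apply`); call this matrix
`J'`. `pderiv l' Q = ∑ i ≠ j, d * φ (X i) ^ (d-1) * J i l'`, so
`det (J'.updateRow i* (fun l' => pderiv l' Q)) = d * φ (X i*) ^ (d-1) * det J'`
(`Matrix.det_updateRow_sum` or linearity), which is not zero and has total degree `≥ (d-1) M`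
(`totalDegree_mul_of_isDomain`). By `Matrix.det_apply` its total degree is at most the sum over the rows
of bounds of the degrees of the entries: row `j`: 0; row `i*`: `Q.totalDegree - 1`; the other `n-2` rows:
`M - 1` (a partial derivative drops the total degree by one, and if all partial derivatives of `Q`
vanish the determinant is zero). So `(d-1) M + 1 + (n-2)(M-1) ≤ ...`:
`Q.totalDegree ≥ (d-1) M + 1 - (n-2)(M-1) = (d-n+1) M + (n-1)`. For `n = 1` the hypothesis is empty. -/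
def Stmt_JAC : Prop := ∀ (k : Type) [Field k] (n d : ℕ) (φ : AutP k n) (j : Fin n) (M : ℕ),
  n ≤ d → (d : k) ≠ 0 → (∃ i, i ≠ j ∧ dg φ i = M) → (∀ i, i ≠ j → dg φ i ≤ M) →
  (d - n + 1) * M + (n - 1) ≤ (∑ i ∈ Finset.univ.erase j, φ (X i) ^ d).totalDegree

/-- CTX (150 lines, uses JAC). `c = d - n + 1`. `(φ * F) (X 1) = φ (X 0) + ∑ j ≠ 0, φ (X j) ^ d` (`FF_one`),
`(φ * F) (X i) = φ (X (i-1))` for `i ≠ 1` (`FF_ne`), `(φ * F⁻¹) (X 0) = φ (X 1) - ∑ j ≠ 1, φ (X j) ^ d`,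
`(φ * F⁻¹) (X i) = φ (X (i+1))` for `i ≠ 0`.
dom/big/lt: `M` = max over `i ≠ 0` of `dg φ i`; not `Dom c 0 φ` gives `dg φ 0 < c * M`, while the sum has
degree `≥ c * M + (n-1)` (JAC), so `dg (φ * F) 1 ≥ c M + (n-1)`
(`totalDegree_add_eq_right_of_totalDegree_lt`), `dg (φ * F) i = dg φ (i-1) ≤ M` for `i ≠ 1`;
`mdeg φ < c M + (n - 1)`.
step/mul: `Dom c 1 φ`: the term `φ (X 1) ^ d` of degree `d * dg φ 1` is larger than all others
(`Dom.lt`), `mdeg φ = dg φ 1`; `Dom c 1 (φ * F)`: `c * dg φ (i-1) ≤ dg φ 1` or (`i - 1 = 1`)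
`c * dg φ 1 ≤ d * dg φ 1`. dq: `dg F 1 = d` (coefficient of `X_1^d`, or apply `mul`-style computation to
`φ = 1` ...), `dg F i = 1`. The half for `F⁻¹` is the same with `0` and `1` exchanged.
`c * c > d` because `d ≥ 2 n`: `2 c ≥ d + 2`. -/
def Stmt_CTX : Prop := ∀ (k : Type) [Field k] (n d : ℕ) [NeZero n], 2 ≤ n → 2 * n ≤ d →
  (d : k) ≠ 0 → Ctx (d - n + 1) d (FF k n d) 0 1

/-- VEE (80 lines). `T = {m : ℤ | ¬ Dom c p (φ * G^m)}`. `m ∈ T → Dom c q (φ * G^(m+1))` (h1.dom)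
`→ m + 1 ∈ T` (not_dom_both). If `T` were empty: `Dom c p (φ * G^m)` for all `m`, so
`mdeg (φ * G^(m-1)) = d * mdeg (φ * G^m)` (h2.mul): `mdeg φ = d^m * mdeg (φ * G^m) ≥ d^m` for all `m`,
impossible. If `T` were everything: `Dom c q (φ * G^m)` for all `m`,
`mdeg φ = d^m * mdeg (φ * G^(-m)) ≥ d^m` for all `m`, impossible. So `T` has a least element `b`
(`Int.exists_least_of_bdd`), `Dom c p (φ * G^(b-1))`, then downwards by h2.step; `Dom c q (φ * G^(b+1))`,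
then upwards by h1.step. `|b| ≤ mdeg φ`: if `b ≥ 1`, `mdeg φ = d^(b-1) * mdeg (φ * G^(b-1)) ≥ 2^(b-1) ≥ b`;
if `b ≤ -1` the same with `d^(-b-1)`. -/
def Stmt_VEE : Prop := ∀ (k : Type) [Field k] (n : ℕ) [NeZero n] (c d : ℕ) (G : AutP k n)
  (p q : Fin n), Ctx c d G p q → ∀ φ : AutP k n, ∃ b : ℤ,
    (∀ m : ℤ, m < b → Dom c p (φ * G ^ m)) ∧ (∀ m : ℤ, b < m → Dom c q (φ * G ^ m)) ∧
    ¬ Dom c p (φ * G ^ b) ∧ |b| ≤ mdeg φ

/-- CP (30 lines, uses VEE). For `m > mdeg φ ≥ |b|`: `Dom c q`; `grow` from `mdeg φ + 1` to `m`. -/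
def Stmt_CP : Prop := ∀ (k : Type) [Field k] (n : ℕ) [NeZero n] (c d : ℕ) (G : AutP k n)
  (p q : Fin n), Ctx c d G p q → ∀ (φ : AutP k n) (m : ℕ), mdeg φ < m →
    Dom c q (φ * G ^ m) ∧ (mdeg (φ * G ^ m) : ℚ) = cp d G φ * (d : ℚ) ^ m

/-- CPF (80 lines, uses CP). All from CP with one large `m` (compare `mdeg` of `ψ * φ * G^m`, ...).
(2) `mdeg (φ * G^m) ≤ mdeg φ * d^m`. (3) `m = B + 1`. (5) not `Dom c p 1` (as `c ≥ 2` and all degrees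
are 1), so `Dom c q G`, `mdeg (G^(m+1)) = d^m * mdeg G = d^(m+1)`. (6), (7):
`φ * G * G^m = φ * G^(m+1)`, `φ * G⁻¹ * G^(m+1) = φ * G^m`. -/
def Stmt_CPF : Prop := ∀ (k : Type) [Field k] (n : ℕ) [NeZero n] (c d : ℕ) (G : AutP k n)
  (p q : Fin n), Ctx c d G p q →
    (∀ φ, 0 < cp d G φ) ∧ (∀ φ, cp d G φ ≤ mdeg φ) ∧
    (∀ (φ : AutP k n) (B : ℕ), mdeg φ ≤ B → ∃ N : ℕ, cp d G φ * (d : ℚ) ^ (B + 1) = N) ∧
    (∀ ψ φ, cp d G (ψ * φ) ≤ mdeg ψ * cp d G φ) ∧ cp d G 1 = 1 ∧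
    (∀ φ, cp d G (φ * G) = cp d G φ * d) ∧ (∀ φ, cp d G (φ * G⁻¹) = cp d G φ / d)

/-- KAP (120 lines, uses VEE, CP, CPF). `b` from VEE, `ψ = φ * G^b`, `P = mdeg (ψ * G)`,
`N = mdeg (ψ * G⁻¹)`. `Dom c q (ψ * G)` and `Dom c p (ψ * G⁻¹)`, so `cp d G φ * d^(b+1) = P` and
`cp d G⁻¹ φ = N * d^(b-1)` (grow and CP, or `cp (φ * G^b) = cp φ * d^b` from CPF); the product is
`P * N / d^2`. If not `Dom c q ψ`: `P ≥ c * dg ψ i + (n-1)` for `i ≠ p`, `N ≥ c * dg ψ i + (n-1)` for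
`i ≠ q` (h1.big, h2.big), both `≥ c + (n-1) = d`; equality forces all `dg ψ i = 1`, `P = d`,
`cp d G φ * d^b = 1`. If `Dom c q ψ`: `P = d * mdeg ψ ≥ d * c` (`Dom.le_mdeg`), `N ≥ c` (`Dom c p (ψ * G⁻¹)`),
`P * N ≥ d * c * c > d^2`. Last: `b < 0`: `mdeg φ = cp d G φ` (grow from `φ`); `b > 0`:
`mdeg φ = cp d G⁻¹ φ`; `b = 0`: `mdeg φ < mdeg (φ * G) = cp d G φ * d`. -/
def Stmt_KAP : Prop := ∀ (k : Type) [Field k] (n : ℕ) [NeZero n] (c d : ℕ) (G : AutP k n)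
  (p q : Fin n), Ctx c d G p q → ∀ φ : AutP k n, 1 ≤ cp d G φ * cp d G⁻¹ φ ∧
    (cp d G φ * cp d G⁻¹ φ = 1 → ∃ b : ℤ, (∀ i, dg (φ * G ^ b) i = 1) ∧
      cp d G φ * (d : ℚ) ^ b = 1) ∧
    (mdeg φ : ℚ) ≤ d * max (cp d G φ) (cp d G⁻¹ φ)

/-- REG (60 lines). If `coeff (single q D) Q = 0` then every monomial `s` of `Q` has `|s| ≤ D` and
`s q ≤ D - 1` (if `s q = D` then `s = single q D`), so the image has degree at most
`∑ i, s i * dg G i = |s| + (d-1) * s q ≤ D + (d-1)(D-1) < d D`. (`aut_eq_sum`, `totalDegree_prod_le`.) -/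
def Stmt_REG : Prop := ∀ (k : Type) [Field k] (n : ℕ) [NeZero n] (d : ℕ) (G : AutP k n) (q : Fin n),
  2 ≤ d → dg G q = d → (∀ i, i ≠ q → dg G i = 1) → ∀ Q : MvPolynomial (Fin n) k,
    1 ≤ Q.totalDegree → (G Q).totalDegree = d * Q.totalDegree →
    coeff (Finsupp.single q Q.totalDegree) Q ≠ 0

/-- MULT (70 lines). `ψ Q = ∑ s, coeff s Q * ∏ ψ (X i)^(s i)`; the term `single q D` has degree exactly
`D * dg ψ q` (`totalDegree_pow` is an equality in a domain), all others smaller: for `|s| ≤ D`,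
`s ≠ single q D`: `∑ i, s i * dg ψ i < D * dg ψ q`. -/
def Stmt_MULT : Prop := ∀ (k : Type) [Field k] (n : ℕ) [NeZero n] (ψ : AutP k n) (q : Fin n),
  (∀ i, i ≠ q → dg ψ i < dg ψ q) → ∀ Q : MvPolynomial (Fin n) k,
    coeff (Finsupp.single q Q.totalDegree) Q ≠ 0 →
    (ψ Q).totalDegree = Q.totalDegree * dg ψ q

/-- KEY (80 lines, uses CP, CPF, REG, MULT). `i = B + 1`. Take `m` larger than the `mdeg` of `θ`,
`G * θ * G⁻¹` and of the product `π = ψ * (G^i * θ * (G^i)⁻¹)`. `Q = (θ * G^m) (X q)`,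
`Q.totalDegree = mdeg (θ * G^m) = cp θ * d^m` (Dom.mdeg_eq). `(G Q).totalDegree = dg (G * θ * G^m) q`
`= dg ((G * θ * G⁻¹) * G^(m+1)) q = mdeg (...) = cp (G * θ * G⁻¹) * d^(m+1) = d * Q.totalDegree`. REG. `ψ * G^i` is
dominated by `q` (CP), MULT: `((ψ * G^i) Q).totalDegree = Q.totalDegree * mdeg (ψ * G^i)
= cp θ * d^m * cp ψ * d^i`. This is `dg (π * G^(m+i)) q`, and `mdeg (π * G^(m+i)) ≤
mdeg (ψ * G^i) * mdeg (θ * G^m)` is the same number. -/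
def Stmt_KEY : Prop := ∀ (k : Type) [Field k] (n : ℕ) [NeZero n] (c d : ℕ) (G : AutP k n)
  (p q : Fin n), Ctx c d G p q → ∀ (ψ θ : AutP k n) (B : ℕ), mdeg ψ ≤ B →
    cp d G (G * θ * G⁻¹) = cp d G θ →
    cp d G (ψ * (G ^ (B + 1) * θ * (G ^ (B + 1))⁻¹)) = cp d G ψ * cp d G θ

/-- PIG (20 lines). Otherwise `w (t * l) ≥ t` for all `t ≤ W + 1` by induction. -/
def Stmt_PIG : Prop := ∀ (w : ℕ → ℕ) (W l M : ℕ), (∀ j, j < M → w j ≤ w (j + 1)) → w M ≤ W →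
  (W + 1) * l ≤ M → ∃ J, J + l ≤ M ∧ w (J + l) = w J

/-- CONST (150 lines, uses CPF, KAP, KEY, PIG). `B1 = d * B`, `E = B1 + 1`, `l = L + 2 * E + 2`,
`W = 2 * B * d^E`, `M0 = (W + 1) * l`. Put `φ_j = G^j * φ * (G^j)⁻¹` (j = 0..M), `u j = cp d G φ_j`,
`v j = cp d G⁻¹ φ_j`. `u (j+1) ≤ u j` (`cp (G * (φ_j * G⁻¹)) ≤ mdeg G * cp φ_j / d`), `v j ≤ v (j+1)`
(`φ_j = G⁻¹ * (φ_(j+1) * G)`), `u 0 ≤ B`, `v M ≤ B` (CPF 2), so `mdeg φ_j ≤ B1` (KAP 3), also for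
`φ⁻¹`. `w j = v j * d^E + B * d^E - u j * d^E` is a natural number (CPF 3), monotone, `≤ W`. PIG: `w` is
constant on `[J', J' + l]`, so `u`, `v` are constant there. Let `J = J' + E + 1`. For
`J ≤ j ≤ J + L`: KEY with `ψ = φ_j⁻¹`, `θ = φ_(j-E)`, `B := B1`: `G^E * θ * (G^E)⁻¹ = φ_j` and
`cp (G * θ * G⁻¹) = u (j-E+1) = u (j-E)`: `1 = cp d G (φ_j⁻¹) * u j`. KEY for `G⁻¹` (Ctx.symm) with
`θ = φ_(j+E)`: `1 = cp d G⁻¹ (φ_j⁻¹) * v j`. So `(u j * v j) * (kappa of φ_j⁻¹) = 1`, both `≥ 1` (KAP 1),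
so `u j * v j = 1`; KAP 2 gives `b`; `b` is the same for all `j` because `u j = d^(-b)` is. -/
def Stmt_CONST : Prop := ∀ (k : Type) [Field k] (n : ℕ) [NeZero n] (c d : ℕ) (G : AutP k n)
  (p q : Fin n), Ctx c d G p q → ∀ B L : ℕ, ∃ M0 : ℕ, ∀ M : ℕ, M0 ≤ M → ∀ φ : AutP k n,
    mdeg φ ≤ B → mdeg φ⁻¹ ≤ B → mdeg (G ^ M * φ * (G ^ M)⁻¹) ≤ B →
    mdeg (G ^ M * φ⁻¹ * (G ^ M)⁻¹) ≤ B →
    ∃ (J : ℕ) (b : ℤ), ∀ j, J ≤ j → j ≤ J + L → ∀ i, dg (G ^ j * φ * (G ^ j)⁻¹ * G ^ b) i = 1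

/-! ### rigidity of affine automorphisms -/

/-- linear coefficients -/
def bc (α : AutP k n) (i l : Fin n) : k := coeff (Finsupp.single l 1) (α (X i))

/-- constant coefficients -/
def tc (α : AutP k n) (i : Fin n) : k := coeff 0 (α (X i))

/-- AFF (40 lines). A polynomial of total degree `≤ 1` is the sum of its constant and linear terms. -/
def Stmt_AFF : Prop := ∀ (k : Type) [Field k] (n : ℕ) (α : AutP k n) (i : Fin n), dg α i = 1 →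
  α (X i) = C (tc α i) + ∑ l, C (bc α i l) * X l

/-- R1 (100 lines, uses AFF). `F * α = α' * F` at `X i`, `i ≠ 1`:
`C t_i + ∑ l, C (bc α i l) * F (X l) = α' (X (i-1))`. The left side contains
`bc α i 1 * (X 0 + ∑ j ≠ 0, X j ^ d)`: coefficient of `X 1 ^ d` (`d ≥ 2`) gives `bc α i 1 = 0`, the
other coefficients give (3), (4). (2): `F⁻¹ * α' = α * F⁻¹` at `X i`, `i ≠ 0`: coefficient of
`X 0 ^ d` (`0 ≠ 1` as `n ≥ 2`). In (3) for `l = 1` both sides are zero. -/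
def Stmt_R1 : Prop := ∀ (k : Type) [Field k] (n : ℕ) [NeZero n] (d : ℕ), 2 ≤ n → 2 ≤ d →
  ∀ α α' : AutP k n, (∀ i, dg α i = 1) → (∀ i, dg α' i = 1) → FF k n d * α = α' * FF k n d →
    (∀ i, i ≠ 1 → bc α i 1 = 0) ∧ (∀ i, i ≠ 0 → bc α' i 0 = 0) ∧
    (∀ i l, i ≠ 1 → bc α' (i - 1) (l - 1) = bc α i l) ∧ (∀ i, i ≠ 1 → tc α' (i - 1) = tc α i)

/-- R2 (60 lines). `F * α = α' * F` at `X 1`: `C (b 1) * (X 0 + ∑ j ≠ 0, X j ^ d) + C (t 1) =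
C (b' 0) * X 0 + C (t' 0) + ∑ l ≠ 0, (C (b' l) * X l + C (t' l)) ^ d`. Apply the evaluation
`X l ↦ X`, `X j ↦ 0` (`j ≠ l`) into `k[X]`: coefficients of `X^(d-1)`, `X^d`; `X 0 ↦ X`. `b' l ≠ 0`
because `α'` is injective. -/
def Stmt_R2 : Prop := ∀ (k : Type) [Field k] (n : ℕ) [NeZero n] (d : ℕ), 2 ≤ n → 3 ≤ d →
  (d : k) ≠ 0 → ∀ (α α' : AutP k n) (b t b' t' : Fin n → k),
    (∀ i, α (X i) = C (b i) * X i + C (t i)) → (∀ i, α' (X i) = C (b' i) * X i + C (t' i)) →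
    FF k n d * α = α' * FF k n d →
    b' 0 = b 1 ∧ ∀ l, l ≠ 0 → t' l = 0 ∧ b' l ^ d = b 1

/-- R3 (60 lines), pure. Let `i ≠ l`, `i`, `l` in `Fin n`. Represent `0` by `n`: numbers in `1..n`. If
`l < i` (as such numbers) go down: `B j i l = B (j + s) (i - s) (l - s)` for `s = l - 1`, the rows
`i, i-1, ..., i-s+1` are not `1`, and `B _ (i-s) 1 = 0`. If `l > i` go up: `B j i l = B (j - s) (i+s) (l+s)`
for `s = n - l`, the rows `i, ..., i+s-1` are not `0`, and `B _ (i+s) 0 = 0`. -/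
def Stmt_R3 : Prop := ∀ (k : Type) [Field k] (n : ℕ) [NeZero n] (N : ℕ)
  (B : ℕ → Fin n → Fin n → k), (∀ j, j < N → ∀ i, i ≠ 1 → B j i 1 = 0) →
  (∀ j, j < N → ∀ i, i ≠ 0 → B (j + 1) i 0 = 0) →
  (∀ j, j < N → ∀ i l, i ≠ 1 → B (j + 1) (i - 1) (l - 1) = B j i l) →
  ∀ j, n ≤ j → j + n ≤ N → ∀ i l, i ≠ l → B j i l = 0

/-- RIG (100 lines, uses AFF, R1, R2, R3). R3 for `B j = bc (α j)` (hypotheses: R1): for
`n ≤ j ≤ 3 n` the `α j` are diagonal, `b j i = bc (α j) i i`, `t j i = tc (α j) i`. By R1, R2 for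
`n ≤ j < 3 n`: `b (j+1) (i-1) = b j i` for all `i`, `t (j+1) (i-1) = t j i` for `i ≠ 1`, `t (j+1) l = 0` and
`b (j+1) l ^ d = b j 1` for `l ≠ 0`. So `t j 0 = t (j+1) (-1) = 0`, and `b j i ^ d = b j s` for all `i ≠ s`
(shift `s` to ... : `b (j' + 1) l ^ d = b j' 1 = b (j' + 1) 0` and `b (j + r) (i - r) = b j i`, take
`r = s`). For `s ≠ s'` choose `i` different from both (`n ≥ 3`): `b s = b i ^ d = b s'`: all equal to
`β`, `β^d = β`, `β ≠ 0`. -/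
def Stmt_RIG : Prop := ∀ (k : Type) [Field k] (n : ℕ) [NeZero n] (d : ℕ), 3 ≤ n → 3 ≤ d →
  (d : k) ≠ 0 → ∀ α : ℕ → AutP k n, (∀ j, j ≤ 4 * n → ∀ i, dg (α j) i = 1) →
    (∀ j, j < 4 * n → FF k n d * α j = α (j + 1) * FF k n d) →
    ∃ β : k, β ^ (d - 1) = 1 ∧ ∀ i, α (2 * n) (X i) = C β * X i

/-- WPD (40 lines, uses CTX, CONST, RIG). `L = 4 n`; `α j = F^(J+j) * φ * (F^(J+j))⁻¹ * F^b`,
`F * α j * F⁻¹ = α (j+1)`. RIG: `α (2n)` is a homothety, it commutes with `F` (`β^d = β`), so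
`φ * F^b = F^(-J-2n) * α (2n) * F^(J+2n) = α (2n)`. -/
def Stmt_WPD : Prop := ∀ (k : Type) [Field k] (n : ℕ) [NeZero n] (d : ℕ), 3 ≤ n → 2 * n ≤ d →
  (d : k) ≠ 0 → ∀ B : ℕ, ∃ M0 : ℕ, ∀ M : ℕ, M0 ≤ M → ∀ φ : AutP k n,
    mdeg φ ≤ B → mdeg φ⁻¹ ≤ B → mdeg (FF k n d ^ M * φ * (FF k n d ^ M)⁻¹) ≤ B →
    mdeg (FF k n d ^ M * φ⁻¹ * (FF k n d ^ M)⁻¹) ≤ B →
    ∃ (β : k) (b : ℤ), β ^ (d - 1) = 1 ∧
      ∀ i, φ (X i) = C β * (FF k n d ^ b) (X i)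

end Pool.Agent.Work.MP_b2cdcf_wpd
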